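import Pool.Agent.H78.PreT.Half
import Pool.Agent.H73.PreorderSuff

/-!
# Sets with closed projections
-/

namespace Pool.Agent.H78.PreT

open Set Filter Topology Pool.Agent.H73.Preord

variable {X : Type*} [TopologicalSpace X]

/-- The projection `C × X → X` is closed. -/
def CP (C : Set X) : Prop :=
  ∀ F : Set (X × X), IsClosed F → IsClosed {y | ∃ c ∈ C, (c, y) ∈ F}

lemma CP.of_isClosedMap {C : Set X} (h : IsClosedMap (fun p : C × X => p.2)) : CP C := by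
  intro F hF
  have h1 := h _ (hF.preimage (f := fun p : C × X => ((p.1 : X), p.2)) (by fun_prop))
  have h2 : {y | ∃ c ∈ C, (c, y) ∈ F} =
      (fun p : C × X => p.2) '' ((fun p : C × X => ((p.1 : X), p.2)) ⁻¹' F) := by
    ext y
    constructor
    · rintro ⟨c, hc, hy⟩
      exact ⟨(⟨c, hc⟩, y), hy, rfl⟩
    · rintro ⟨⟨c, y'⟩, hy, rfl⟩
      exact ⟨c, c.2, hy⟩
  rw [h2]
  exact h1

lemma CP.isClosed [T2Space X] {C : Set X} (h : CP C) : IsClosed C := by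
  have h1 := h (diagonal X) isClosed_diagonal
  have h2 : {y | ∃ c ∈ C, (c, y) ∈ diagonal X} = C := by
    ext y
    constructor
    · rintro ⟨c, hc, hy⟩
      have : c = y := hy
      exact this ▸ hc
    · exact fun hy => ⟨y, hy, rfl⟩
  rwa [h2] at h1

lemma CP.mono {C D : Set X} (h : CP C) (hD : IsClosed D) (hDC : D ⊆ C) : CP D := by
  intro F hF
  have h1 := h (F ∩ (D ×ˢ univ)) (hF.inter (hD.prod isClosed_univ))
  have h2 : {y | ∃ c ∈ C, (c, y) ∈ F ∩ (D ×ˢ univ)} = {y | ∃ c ∈ D, (c, y) ∈ F} := by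
    ext y
    constructor
    · rintro ⟨c, _, hy, hy'⟩
      exact ⟨c, hy'.1, hy⟩
    · rintro ⟨c, hc, hy⟩
      exact ⟨c, hDC hc, hy, hc, mem_univ _⟩
  rwa [h2] at h1

lemma CP.empty : CP (∅ : Set X) := by
  intro F _
  simp

lemma CP.union {C D : Set X} (h : CP C) (h' : CP D) : CP (C ∪ D) := by
  intro F hF
  have h2 : {y | ∃ c ∈ C ∪ D, (c, y) ∈ F} =
      {y | ∃ c ∈ C, (c, y) ∈ F} ∪ {y | ∃ c ∈ D, (c, y) ∈ F} := by
    ext y
    constructor
    · rintro ⟨c, hc | hc, hy⟩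
      · exact Or.inl ⟨c, hc, hy⟩
      · exact Or.inr ⟨c, hc, hy⟩
    · rintro (⟨c, hc, hy⟩ | ⟨c, hc, hy⟩)
      · exact ⟨c, Or.inl hc, hy⟩
      · exact ⟨c, Or.inr hc, hy⟩
  rw [h2]
  exact (h F hF).union (h' F hF)

lemma CP.isClosed_iHull {r : X → X → Prop} (hr : IsClosedPreorder r) {C : Set X} (h : CP C) :
    IsClosed (iHull r C) := h {p | r p.1 p.2} hr.isClosed

lemma CP.isClosed_dHull {r : X → X → Prop} (hr : IsClosedPreorder r) {C : Set X} (h : CP C) :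
    IsClosed (dHull r C) := h {p | r p.2 p.1} (isClosedPreorder_swap hr).isClosed

/-- Separation from a closed set with closed hull. -/
lemma RelSep.sep_cp (h : RelSep X) {r : X → X → Prop} (hr : IsClosedPreorder r) {Q Γ : Set X}
    (hQc : IsClosed Q) (hQ : CP Q) (hΓ : IsClosed Γ) (hdΓ : IsClosed (dHull r Γ))
    (hdis : Disjoint Q (dHull r Γ)) :
    ∃ P M : Set X, IsOpen P ∧ IsOpen M ∧ Q ⊆ P ∧ Γ ⊆ M ∧ ∀ p ∈ P, ∀ m ∈ M, ¬ r p m := by
  obtain ⟨U, V, hU, hV, hΓU, hQV, hUV⟩ := h {p | r p.1 p.2} Γ Q hr.isClosed hΓ hQc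
    (Set.disjoint_left.2 fun x hx hx' => Set.disjoint_left.1 hdis hx'
      (subset_dHull hr.isPreorder _ hx))
    (by
      have h1 : {y | ∃ b ∈ Q, (b, y) ∈ {p : X × X | r p.1 p.2}} = iHull r Q := rfl
      rw [h1, (hQ.isClosed_iHull hr).closure_eq]
      refine Set.disjoint_left.2 ?_
      rintro y ⟨q, hq, hqy⟩ hy
      exact Set.disjoint_left.1 hdis hq ⟨y, hy, hqy⟩)
    (by
      have h1 : {x | ∃ a ∈ Γ, (x, a) ∈ {p : X × X | r p.1 p.2}} = dHull r Γ := rfl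
      rw [h1, hdΓ.closure_eq]
      exact hdis.symm)
  exact ⟨V, U, hV, hU, hQV, hΓU, hUV⟩

end Pool.Agent.H78.PreT
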