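import Pool.Agent.H78.PreT.Func
import Pool.Agent.H73.PreorderNec

/-!
# The condition on continuous functions is necessary
-/

namespace Pool.Agent.H78.PreT

open Set Filter Topology Pool.Agent.H73.Preord

variable {X : Type*} [TopologicalSpace X]

/-- Near each non-isolated point of a σ-compact regular Hausdorff space there is a point which is
in the closure of a sequence of other points. -/
lemma exists_cluster_seq [T2Space X] [RegularSpace X] [SigmaCompactSpace X] {a : X}
    (ha : a ∈ nonIsolated X) {G : Set X} (hG : G ∈ 𝓝 a) :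
    ∃ (z : X) (s : ℕ → X), z ∈ G ∧ (∀ i, s i ∈ G) ∧ (∀ i, s i ≠ z) ∧
      z ∈ closure (range s) := by
  classical
  obtain ⟨C, hC, hCc, hCG⟩ := exists_mem_nhds_isClosed_subset hG
  -- it is enough to find a countable set
  have key : ∀ (z : X) (S : Set X), z ∈ G → S ⊆ G → S.Countable → z ∉ S → z ∈ closure S →
      ∃ (z : X) (s : ℕ → X), z ∈ G ∧ (∀ i, s i ∈ G) ∧ (∀ i, s i ≠ z) ∧
        z ∈ closure (range s) := by
    intro z S hz hSG hS hzS hcl
    have hSne : S.Nonempty := by
      by_contra hcon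
      rw [not_nonempty_iff_eq_empty] at hcon
      rw [hcon, closure_empty] at hcl
      exact hcl
    obtain ⟨s, rfl⟩ := hS.exists_eq_range hSne
    exact ⟨z, s, hz, fun i => hSG ⟨i, rfl⟩, fun i h => hzS ⟨i, h⟩, hcl⟩
  by_cases hinf : ∃ k, (C ∩ compactCovering X k).Infinite
  · obtain ⟨k, hk⟩ := hinf
    let e := hk.natEmbedding
    have hSinf : (range fun n => (e n : X)).Infinite :=
      infinite_range_of_injective (Subtype.val_injective.comp e.injective)
    obtain ⟨z, hz, hacc⟩ := hSinf.exists_accPt_of_subset_isCompact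
      ((isCompact_compactCovering X k).inter_left hCc) (by
        rintro _ ⟨n, rfl⟩
        exact (e n).2)
    rw [accPt_principal_iff_clusterPt, ← mem_closure_iff_clusterPt] at hacc
    refine key z ((range fun n => (e n : X)) \ {z}) (hCG hz.1) ?_
      ((countable_range _).mono sdiff_subset) (fun h => h.2 rfl) hacc
    rintro _ ⟨⟨n, rfl⟩, _⟩
    exact hCG (e n).2.1
  · push Not at hinf
    have hCcount : C.Countable := by
      have h1 : C = ⋃ k, C ∩ compactCovering X k := by
        rw [← inter_iUnion, iUnion_compactCovering, inter_univ]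
      rw [h1]
      exact countable_iUnion fun k => (not_infinite.1 (fun h => by
        have := hinf k
        exact h this)).countable
    have hne := neBot_of_nonIsolated ha
    refine key a (C \ {a}) (mem_of_mem_nhds hG) (fun x hx => hCG hx.1)
      (hCcount.mono sdiff_subset) (fun h => h.2 rfl) ?_
    rw [mem_closure_iff_clusterPt, ← accPt_principal_iff_clusterPt, accPt_iff_frequently]
    have h2 : ∃ᶠ y in 𝓝[≠] a, y ∈ C := (Filter.Eventually.frequently
      (nhdsWithin_le_nhds hC))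
    rw [frequently_nhdsWithin_iff] at h2
    exact h2.mono fun y hy => ⟨hy.2, hy.1⟩

/-- The sequence condition at a closed set, from a discrete family of test sequences. -/
lemma seqCond_of_test [T1Space X] (h : RelSep X) {A : Set X} (hA : IsClosed A) (z : ℕ → X)
    (s : ℕ → ℕ → X) (C : ℕ → Set X) (hC : LocallyFinite C) (hzC : ∀ m, z m ∈ C m)
    (hsC : ∀ m i, s m i ∈ C m) (hdis : ∀ m n x, x ∈ C m → x ∈ C n → m = n)
    (hsz : ∀ m i, s m i ≠ z m) (hcl : ∀ m, z m ∈ closure (range (s m)))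
    (hzA : ∀ m, z m ∉ A) (Z : ℕ → ℕ → Set X) (hZ : ∀ m j, IsClosed (Z m j))
    (hanti : ∀ m, Antitone (Z m)) (hemp : ∀ m, ⋂ j, Z m j = ∅)
    (hAZ : ∀ m j, Disjoint A (Z m j)) :
    ∃ U : Set X, IsOpen U ∧ A ⊆ U ∧ ∀ m, ∃ j, Disjoint U (Z m j) := by
  classical
  let F : ℕ × ℕ → Set (X × X) := fun p => Z p.1 p.2 ×ˢ {s p.1 p.2}
  have hFlf : LocallyFinite F := by
    rintro ⟨y, c⟩
    obtain ⟨O, hO, hOf⟩ := hC c
    have h1 : ∀ m, ∃ j, y ∉ Z m j := by
      intro m
      by_contra hcon
      push Not at hcon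
      have : y ∈ ⋂ j, Z m j := mem_iInter.2 hcon
      rw [hemp m] at this
      exact this
    choose j hj using h1
    refine ⟨(⋂ m ∈ hOf.toFinset, (Z m (j m))ᶜ) ×ˢ O, prod_mem_nhds
      ((Filter.biInter_finset_mem _).2 fun m _ => (hZ m (j m)).isOpen_compl.mem_nhds (hj m)) hO,
      ?_⟩
    have hfin : (⋃ m ∈ {m | (C m ∩ O).Nonempty}, (fun i => (m, i)) '' {i | i < j m}).Finite :=
      hOf.biUnion fun m _ => (finite_lt_nat _).image _
    refine hfin.subset ?_
    rintro ⟨m, i⟩ ⟨⟨y', c'⟩, ⟨hy', hc'⟩, ⟨hy'', hc''⟩⟩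
    have hc3 : c' = s m i := hc'
    have hm : m ∈ {m | (C m ∩ O).Nonempty} := ⟨c', by rw [hc3]; exact hsC m i, hc''⟩
    refine mem_iUnion₂.2 ⟨m, hm, i, ?_, rfl⟩
    by_contra hcon
    have h3 : y' ∈ (Z m (j m))ᶜ := mem_iInter₂.1 hy'' m (by simpa using hm)
    exact h3 (hanti m (not_lt.1 hcon) hy')
  have hFc : IsClosed (⋃ p, F p) := hFlf.isClosed_iUnion fun p => (hZ _ _).prod isClosed_singleton
  have hBc : IsClosed (range z) := by
    have h1 : range z = ⋃ m, {z m} := by ext x; simp [eq_comm]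
    rw [h1]
    refine LocallyFinite.isClosed_iUnion ?_ fun m => isClosed_singleton
    exact hC.subset fun m => singleton_subset_iff.2 (hzC m)
  obtain ⟨U, V, hU, hV, hAU, hBV, hUV⟩ := h (⋃ p, F p) (range z) A hFc hBc hA
    (Set.disjoint_left.2 fun x hx hx' => by
      obtain ⟨m, rfl⟩ := hx
      exact hzA m hx')
    (by
      have : {y | ∃ b ∈ A, (b, y) ∈ ⋃ p, F p} = ∅ := by
        apply Set.eq_empty_of_forall_notMem
        rintro y ⟨b, hb, hby⟩
        obtain ⟨⟨m, i⟩, hmi⟩ := mem_iUnion.1 hby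
        exact Set.disjoint_left.1 (hAZ m i) hb hmi.1
      rw [this]; simp)
    (by
      have : {x | ∃ a ∈ range z, (x, a) ∈ ⋃ p, F p} = ∅ := by
        apply Set.eq_empty_of_forall_notMem
        rintro y ⟨_, ⟨n, rfl⟩, hby⟩
        obtain ⟨⟨m, i⟩, hmi⟩ := mem_iUnion.1 hby
        have h1 : z n = s m i := hmi.2
        have h2 : n = m := hdis n m (z n) (hzC n) (by rw [h1]; exact hsC m i)
        subst h2
        exact hsz n i h1.symm
      rw [this]; simp)
  refine ⟨V, hV, hBV, fun m => ?_⟩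
  obtain ⟨_, hsU, ⟨i, rfl⟩⟩ := mem_closure_iff.1 (hcl m) U hU (hAU ⟨m, rfl⟩)
  exact ⟨i, Set.disjoint_left.2 fun v hv hvZ => hUV v hv _ hsU
    (mem_iUnion.2 ⟨(m, i), ⟨hvZ, rfl⟩⟩)⟩

/-- An unbounded continuous function on a closed set which is not compact. -/
lemma exists_unbounded [T2Space X] [NormalSpace X] [RegularSpace X] [LindelofSpace X]
    {S : Set X} (hS : IsClosed S) (hS' : ¬ IsCompact S) :
    ∃ f : X → ℝ, Continuous f ∧ (∀ x, 0 ≤ f x) ∧ ∀ b : ℝ, ∃ x ∈ S, b < f x := by
  classical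
  by_contra hcon
  push Not at hcon
  apply hS'
  apply isCompact_of_finite_subcover
  intro ι U hU hSU
  obtain ⟨t, ht, htU⟩ := hS.isLindelof.elim_countable_subcover U hU hSU
  rcases t.eq_empty_or_nonempty with hte | hte
  · refine ⟨∅, ?_⟩
    rw [hte] at htU
    simpa using htU
  obtain ⟨e, rfl⟩ := ht.exists_eq_range hte
  obtain ⟨f, hf1, hf2, hf3, -⟩ := exists_growing (fun n => S \ ⋃ i < n, U (e i))
    (fun n => hS.sdiff (isOpen_biUnion fun i _ => hU _))
    (fun i j hij x hx => ⟨hx.1, fun hx' => hx.2 (by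
      obtain ⟨l, hl, hxl⟩ := mem_iUnion₂.1 hx'
      exact mem_iUnion₂.2 ⟨l, lt_of_lt_of_le hl hij, hxl⟩)⟩)
    (by
      apply Set.eq_empty_of_forall_notMem
      intro x hx
      have hx' := mem_iInter.1 hx
      obtain ⟨_, ⟨i, rfl⟩, hi⟩ := mem_iUnion₂.1 (htU (hx' 0).1)
      exact (hx' (i + 1)).2 (mem_iUnion₂.2 ⟨i, Nat.lt_succ_self i, hi⟩))
    ∅ isClosed_empty 0 (by simp)
  obtain ⟨b, hb⟩ := hcon f hf1 hf2
  obtain ⟨n, hn⟩ := exists_nat_gt b
  refine ⟨(Finset.range n).image e, fun x hx => ?_⟩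
  have h1 : x ∈ ⋃ i < n, U (e i) := by
    by_contra hcon'
    have := hf3 n x ⟨hx, hcon'⟩
    have := hb x hx
    linarith
  obtain ⟨i, hi, hxi⟩ := mem_iUnion₂.1 h1
  exact mem_iUnion₂.2 ⟨e i, by simpa using ⟨i, hi, rfl⟩, hxi⟩

/-- Separation of closed relations in a σ-compact Hausdorff space with a non-compact set of
non-isolated points implies the condition on continuous functions. -/
theorem funCond_of_relSep [T2Space X] [SigmaCompactSpace X] (h : RelSep X)
    (hnc : ¬ IsCompact (nonIsolated X)) : FunCond X := by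
  classical
  have := h.normalSpace
  have : T4Space X := ⟨⟩
  have : RegularSpace X := inferInstance
  obtain ⟨f, hf1, hf2, hf3⟩ := exists_unbounded isClosed_nonIsolated hnc
  choose g hg1 hg2 using hf3
  let a : ℕ → X := fun n => Nat.rec (g 0) (fun _ x => g (f x + 10)) n
  have ha0 : a 0 = g 0 := rfl
  have has : ∀ n, a (n + 1) = g (f (a n) + 10) := fun n => rfl
  have haX : ∀ n, a n ∈ nonIsolated X := by
    intro n
    cases n with
    | zero => exact hg1 0
    | succ n => rw [has]; exact hg1 _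
  set c : ℕ → ℝ := fun n => f (a n) with hc
  have hcs : ∀ n, c n + 10 < c (n + 1) := fun n => by
    have := hg2 (f (a n) + 10)
    simp only [hc, has]
    exact this
  have hcmono : ∀ n k, c n + 10 * k ≤ c (n + k) := by
    intro n k
    induction k with
    | zero => simp
    | succ k ih =>
      have := hcs (n + k)
      rw [← add_assoc]
      push_cast
      linarith
  have hclt : ∀ m n, m < n → c m + 10 ≤ c n := by
    intro m n hmn
    have h1 := hcmono m (n - m)
    have h2 : m + (n - m) = n := by omega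
    rw [h2] at h1
    have h3 : (1 : ℝ) ≤ ((n - m : ℕ) : ℝ) := by
      have : 1 ≤ n - m := by omega
      exact_mod_cast this
    linarith
  have hcge : ∀ n : ℕ, (n : ℝ) ≤ c n := by
    intro n
    have h1 := hcmono 0 n
    have h2 : 0 ≤ c 0 := hf2 _
    rw [zero_add] at h1
    have h3 : (0 : ℝ) ≤ n := Nat.cast_nonneg n
    linarith
  have h1 : ∀ m, ∃ (z : X) (s : ℕ → X), z ∈ {x | |f x - c m| < 1} ∧
      (∀ i, s i ∈ {x | |f x - c m| < 1}) ∧ (∀ i, s i ≠ z) ∧ z ∈ closure (range s) := by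
    intro m
    refine exists_cluster_seq (haX m) (IsOpen.mem_nhds ?_ ?_)
    · exact isOpen_lt (by fun_prop) continuous_const
    · simp [hc]
  choose z s hz hs hsz hcl using h1
  -- the test sets
  have hlf : ∀ p : ℕ, LocallyFinite (fun m : ℕ => {x | |f x - c (2 * m + p)| ≤ 1}) := by
    intro p x
    refine ⟨{y | |f y - f x| < 1}, IsOpen.mem_nhds (isOpen_lt (by fun_prop) continuous_const)
      (by simp), ?_⟩
    obtain ⟨n, hn⟩ := exists_nat_gt (f x + 2)
    refine (finite_lt_nat n).subset ?_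
    rintro m ⟨y, hy1, hy2⟩
    have hy1' : |f y - c (2 * m + p)| ≤ 1 := hy1
    have hy2' : |f y - f x| < 1 := hy2
    rw [abs_le] at hy1'
    rw [abs_lt] at hy2'
    have h2 := hcge (2 * m + p)
    have h3 : (m : ℝ) ≤ ((2 * m + p : ℕ) : ℝ) := by
      have : m ≤ 2 * m + p := by omega
      exact_mod_cast this
    have h4 : (m : ℝ) < n := by linarith
    exact_mod_cast h4
  have hdisj : ∀ m n x, |f x - c m| ≤ 1 → |f x - c n| ≤ 1 → m = n := by
    intro m n x h2 h3
    rw [abs_le] at h2 h3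
    by_contra hne
    rcases Nat.lt_or_gt_of_ne hne with hlt | hlt
    · have := hclt m n hlt
      linarith
    · have := hclt n m hlt
      linarith
  intro A hA u hu hub
  choose b hb using fun n => isBounded_image_iff.1 (hub n)
  -- the two parts of `A`
  have hpart : ∀ p : ℕ, ∃ U : Set X, IsOpen U ∧
      (A ∩ {x | ∀ m, 2 ≤ |f x - c (2 * m + p)|}) ⊆ U ∧
      ∀ n, ∃ j : ℕ, ∀ x ∈ U, |u n x| ≤ b n + 1 + j := by
    intro p
    have hAc : IsClosed (A ∩ {x | ∀ m : ℕ, 2 ≤ |f x - c (2 * m + p)|}) := by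
      refine hA.inter ?_
      rw [ofPred_forall]
      exact isClosed_iInter fun m => isClosed_le continuous_const (by fun_prop)
    obtain ⟨U, hU, hAU, hUZ⟩ := seqCond_of_test h hAc (fun m => z (2 * m + p))
      (fun m => s (2 * m + p)) (fun m => {x | |f x - c (2 * m + p)| ≤ 1}) (hlf p)
      (fun m => by
        have h3 : |f (z (2 * m + p)) - c (2 * m + p)| < 1 := hz (2 * m + p)
        exact h3.le)
      (fun m i => by
        have h3 : |f (s (2 * m + p) i) - c (2 * m + p)| < 1 := hs (2 * m + p) i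
        exact h3.le)
      (fun m n x hm hn => by
        have := hdisj _ _ x hm hn
        omega)
      (fun m => hsz _) (fun m => hcl _)
      (fun m hm => by
        have h2 := hm.2 m
        have h3 : |f (z (2 * m + p)) - c (2 * m + p)| < 1 := hz (2 * m + p)
        linarith)
      (fun n j => {x | b n + 1 + (j : ℝ) ≤ |u n x|})
      (fun n j => isClosed_le continuous_const ((hu n).abs))
      (fun n i j hij x hx => by
        have hx' : b n + 1 + (j : ℝ) ≤ |u n x| := hx
        have h2 : (i : ℝ) ≤ j := by exact_mod_cast hij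
        change b n + 1 + (i : ℝ) ≤ |u n x|
        linarith)
      (fun n => by
        apply Set.eq_empty_of_forall_notMem
        intro x hx
        obtain ⟨j, hj⟩ := exists_nat_gt (|u n x| - b n)
        have h2 : b n + 1 + (j : ℝ) ≤ |u n x| := mem_iInter.1 hx j
        linarith)
      (fun n j => Set.disjoint_left.2 fun x hx hx' => by
        have h2 : b n + 1 + (j : ℝ) ≤ |u n x| := hx'
        have h3 := hb n x hx.1
        have h4 : (0 : ℝ) ≤ j := Nat.cast_nonneg j
        linarith)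
    refine ⟨U, hU, hAU, fun n => ?_⟩
    obtain ⟨j, hj⟩ := hUZ n
    refine ⟨j, fun x hx => ?_⟩
    by_contra hcon
    exact Set.disjoint_left.1 hj hx (not_le.1 hcon).le
  obtain ⟨U0, hU0, hA0, hb0⟩ := hpart 0
  obtain ⟨U1, hU1, hA1, hb1⟩ := hpart 1
  refine ⟨U0 ∪ U1, hU0.union hU1, fun x hx => ?_, fun n => ?_⟩
  · by_cases hx0 : ∀ m, 2 ≤ |f x - c (2 * m + 0)|
    · exact Or.inl (hA0 ⟨hx, hx0⟩)
    · push Not at hx0
      obtain ⟨m, hm⟩ := hx0
      refine Or.inr (hA1 ⟨hx, fun k => ?_⟩)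
      rw [abs_lt] at hm
      rw [le_abs]
      rcases Nat.lt_or_ge (2 * m + 0) (2 * k + 1) with hlt | hge
      · have := hclt _ _ hlt
        right; linarith
      · have hlt : 2 * k + 1 < 2 * m + 0 := by omega
        have := hclt _ _ hlt
        left; linarith
  · obtain ⟨j0, hj0⟩ := hb0 n
    obtain ⟨j1, hj1⟩ := hb1 n
    refine isBounded_image_iff.2 ⟨max (b n + 1 + j0) (b n + 1 + j1), ?_⟩
    rintro x (hx | hx)
    · exact (hj0 x hx).trans (le_max_left _ _)
    · exact (hj1 x hx).trans (le_max_right _ _)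

end Pool.Agent.H78.PreT
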