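import Pool.Agent.H78.PreT.TreeCP
import Pool.Agent.H78.PreT.Nec

/-!
# Countable unions of sets with closed projections: the cases
-/

namespace Pool.Agent.H78.PreT

open Set Filter Topology Pool.Agent.H73.Preord

variable {X : Type*} [TopologicalSpace X]

/-- Every countable union of closed sets is closed. -/
def PSpace (X : Type*) [TopologicalSpace X] : Prop :=
  ∀ E : ℕ → Set X, (∀ i, IsClosed (E i)) → IsClosed (⋃ i, E i)

/-- A decreasing sequence of closed sets with empty intersection leaves `T` at some stage. -/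
def CC (T : Set X) : Prop :=
  ∀ Z : ℕ → Set X, (∀ j, IsClosed (Z j)) → Antitone Z → (⋂ j, Z j = ∅) → ∃ j, Disjoint T (Z j)

lemma seqCond_of_pSpace (h : PSpace X) : SeqCond X := by
  intro A hA Z hZ _ _ hdis
  choose j hj using hdis
  refine ⟨(⋃ m, Z m (j m))ᶜ, (h _ fun m => hZ m _).isOpen_compl, fun a ha ha' => ?_,
    fun m => ⟨j m, Set.disjoint_left.2 fun x hx hx' => hx (mem_iUnion.2 ⟨m, hx'⟩)⟩⟩
  obtain ⟨m, hm⟩ := mem_iUnion.1 ha'
  exact Set.disjoint_left.1 (hj m) ha hm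

/-- Outside P-spaces, sets with closed projections are countably compact. -/
lemma CP.cc [T2Space X] (h : ¬ PSpace X) {T : Set X} (hT : CP T) : CC T := by
  intro Z hZ hanti hemp
  by_contra hcon
  push Not at hcon
  apply h
  intro E hE
  -- an increasing sequence
  let E' : ℕ → Set X := fun i => ⋃ k ∈ Finset.range (i + 1), E k
  have hE' : ∀ i, IsClosed (E' i) := fun i => isClosed_biUnion_finset fun k _ => hE k
  have hEE' : ⋃ i, E' i = ⋃ i, E i := by
    apply Subset.antisymm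
    · exact iUnion_subset fun i => iUnion₂_subset fun k _ => subset_iUnion E k
    · exact iUnion_subset fun i x hx => mem_iUnion.2 ⟨i, mem_iUnion₂.2 ⟨i, by simp, hx⟩⟩
  let F : ℕ → Set (X × X) := fun j => (T ∩ Z j) ×ˢ E' j
  have hFlf : LocallyFinite F := by
    rintro ⟨x, y⟩
    have : ∃ i, x ∉ Z i := by
      by_contra hc
      push Not at hc
      have : x ∈ ⋂ j, Z j := mem_iInter.2 hc
      rw [hemp] at this
      exact this
    obtain ⟨i, hi⟩ := this
    refine ⟨(Z i)ᶜ ×ˢ univ, prod_mem_nhds ((hZ i).isOpen_compl.mem_nhds hi) univ_mem,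
      (finite_lt_nat i).subset ?_⟩
    rintro j ⟨⟨x', y'⟩, ⟨hx', _⟩, ⟨hx'', _⟩⟩
    by_contra hc
    exact hx'' (hanti (not_lt.1 hc) hx'.2)
  have hFc : IsClosed (⋃ j, F j) :=
    hFlf.isClosed_iUnion fun j => (hT.isClosed.inter (hZ j)).prod (hE' j)
  have h1 := hT _ hFc
  have h2 : {y | ∃ c ∈ T, (c, y) ∈ ⋃ j, F j} = ⋃ i, E i := by
    rw [← hEE']
    ext y
    constructor
    · rintro ⟨c, _, hc⟩
      obtain ⟨j, hj⟩ := mem_iUnion.1 hc
      exact mem_iUnion.2 ⟨j, hj.2⟩
    · intro hy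
      obtain ⟨j, hj⟩ := mem_iUnion.1 hy
      obtain ⟨c, hc, hc'⟩ := Set.not_disjoint_iff.1 (hcon j)
      exact ⟨c, hc, mem_iUnion.2 ⟨j, ⟨hc, hc'⟩, hj⟩⟩
  rwa [h2] at h1

/-- If the set of non-isolated points is countably compact, it has closed projections. -/
lemma cp_nonIsolated [T2Space X] (h : RelSep X) (T : ℕ → Set X) (hT : ∀ n, CP (T n))
    (hTu : ⋃ n, T n = univ) (hcc : CC (nonIsolated X)) : CP (nonIsolated X) := by
  intro F hF
  rw [← isOpen_compl_iff, isOpen_iff_mem_nhds]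
  intro y hy
  have hy' : ∀ c ∈ nonIsolated X, (c, y) ∉ F := fun c hc hcy => hy ⟨c, hc, hcy⟩
  by_cases hyN : y ∈ nonIsolated X
  swap
  · have hyo : IsOpen ({y} : Set X) := by
      by_contra hcon
      exact hyN hcon
    exact Filter.mem_of_superset (hyo.mem_nhds rfl) (singleton_subset_iff.2 hy)
  obtain ⟨N1, N2, hN1, hN2, hy1, hy2, hN⟩ := isOpen_prod_iff.1 hF.isOpen_compl y y (hy' y hyN)
  set N := N1 ∩ N2 with hNdef
  have hNo : IsOpen N := hN1.inter hN2
  have hNN : ∀ v ∈ N, ∀ u ∈ N, (v, u) ∉ F := fun v hv u hu => hN ⟨hv.1, hu.2⟩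
  have hs : ∀ k, ∃ U V : Set X, IsOpen U ∧ IsOpen V ∧ {y} ⊆ U ∧
      (T k ∩ nonIsolated X) \ N ⊆ V ∧ ∀ v ∈ V, ∀ u ∈ U, (v, u) ∉ F := by
    intro k
    have hBc : IsClosed ((T k ∩ nonIsolated X) \ N) :=
      ((hT k).isClosed.inter isClosed_nonIsolated).sdiff hNo
    have hBcp : CP ((T k ∩ nonIsolated X) \ N) := (hT k).mono hBc fun x hx => hx.1.1
    refine h F {y} ((T k ∩ nonIsolated X) \ N) hF isClosed_singleton hBc
      (Set.disjoint_left.2 ?_) ?_ ?_
    · rintro x hx hx'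
      have : x = y := hx
      subst this
      exact hx'.2 ⟨hy1, hy2⟩
    · rw [(hBcp F hF).closure_eq]
      refine Set.disjoint_left.2 ?_
      rintro x ⟨b, hb, hbx⟩ hx
      have : x = y := hx
      subst this
      exact hy' b hb.1.2 hbx
    · have h1 : {x | ∃ a ∈ ({y} : Set X), (x, a) ∈ F} = (fun x => (x, y)) ⁻¹' F := by
        ext x
        simp
      rw [h1, (hF.preimage (by fun_prop)).closure_eq]
      exact Set.disjoint_left.2 fun x hx hx' => hy' x hx'.1.2 hx
  choose U V hU hV hyU hBV hUV using hs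
  obtain ⟨j, hj⟩ := hcc (fun j => (nonIsolated X \ N) \ ⋃ k < j, V k)
    (fun j => (isClosed_nonIsolated.sdiff hNo).sdiff (isOpen_biUnion fun k _ => hV k))
    (fun i j hij x hx => ⟨hx.1, fun hx' => hx.2 (by
      obtain ⟨l, hl, hxl⟩ := mem_iUnion₂.1 hx'
      exact mem_iUnion₂.2 ⟨l, lt_of_lt_of_le hl hij, hxl⟩)⟩)
    (by
      apply Set.eq_empty_of_forall_notMem
      intro x hx
      have hx' := mem_iInter.1 hx
      have : x ∈ ⋃ n, T n := by rw [hTu]; exact mem_univ x
      obtain ⟨k, hk⟩ := mem_iUnion.1 this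
      exact (hx' (k + 1)).2 (mem_iUnion₂.2 ⟨k, Nat.lt_succ_self k,
        hBV k ⟨⟨hk, (hx' 0).1.1⟩, (hx' 0).1.2⟩⟩))
  have hmem : N ∩ ⋂ k ∈ Finset.range j, U k ∈ 𝓝 y := by
    refine Filter.inter_mem (hNo.mem_nhds ⟨hy1, hy2⟩) ((Filter.biInter_finset_mem _).2
      fun k _ => (hU k).mem_nhds (hyU k rfl))
  refine Filter.mem_of_superset hmem ?_
  rintro z ⟨hzN, hzU⟩ ⟨c, hc, hcz⟩
  by_cases hcN : c ∈ N
  · exact hNN c hcN z hzN hcz
  · have h1 : c ∈ ⋃ k < j, V k := by
      by_contra hcon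
      exact Set.disjoint_left.1 hj hc ⟨⟨hc, hcN⟩, hcon⟩
    obtain ⟨k, hk, hck⟩ := mem_iUnion₂.1 h1
    exact hUV k c hck z (mem_iInter₂.1 hzU k (Finset.mem_range.2 hk)) hcz

/-- A growing function from an open cover by an increasing sequence. -/
lemma exists_growing_of_cover [T2Space X] [NormalSpace X] (Z : ℕ → Set X)
    (hZ : ∀ n, IsClosed (Z n)) (hanti : Antitone Z) (W W' : ℕ → Set X)
    (hWc : ∀ n, IsClosed (W n)) (hW'o : ∀ n, IsOpen (W' n)) (hW'W : ∀ n, W' n ⊆ W n)
    (hWmono : ∀ m n, m ≤ n → W m ⊆ W n) (hWZ : ∀ n, Disjoint (W n) (Z n))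
    (hcov : ∀ x, ∃ n, x ∈ W' n) :
    ∃ f : X → ℝ, Continuous f ∧ (∀ x, 0 ≤ f x) ∧ (∀ n, ∀ x ∈ Z n, (n : ℝ) ≤ f x) := by
  have h3 : ∀ n, ∃ f : C(X, ℝ), EqOn f 0 (W n) ∧ EqOn f 1 (Z n) ∧
      ∀ x, f x ∈ Icc (0 : ℝ) 1 := fun n =>
    exists_continuous_zero_one_of_isClosed (hWc n) (hZ n) (hWZ n)
  choose f hf0 hf1 hf2 using h3
  have hzero : ∀ k n x, k ≤ n → x ∈ W' k → f n x = 0 := fun k n x hkn hx =>
    hf0 n (hWmono k n hkn (hW'W k hx))
  have hsupp : ∀ k x, x ∈ W' k → ∑ᶠ n, f n x = ∑ n ∈ Finset.range k, f n x := by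
    intro k x hx
    refine finsum_eq_sum_of_support_subset _ ?_
    intro n hn
    rw [Finset.coe_range, mem_Iio]
    by_contra hcon
    exact hn (hzero k n x (not_lt.1 hcon) hx)
  refine ⟨fun x => ∑ᶠ n, f n x, ?_, ?_, ?_⟩
  · refine continuous_finsum (fun n => (f n).continuous) ?_
    intro x
    obtain ⟨k, hk⟩ := hcov x
    refine ⟨W' k, (hW'o k).mem_nhds hk, (finite_lt_nat k).subset ?_⟩
    rintro n ⟨y, hy, hyk⟩
    by_contra hcon
    exact hy (hzero k n y (not_lt.1 hcon) hyk)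
  · intro x
    exact finsum_nonneg fun n => (hf2 n x).1
  · intro n x hx
    obtain ⟨k, hk⟩ := hcov x
    simp only
    rw [hsupp k x hk]
    have hnk : n + 1 ≤ k := by
      by_contra hcon
      have h4 := hzero k n x (by omega) hk
      have h5 := hf1 n hx
      rw [h4] at h5
      simp at h5
    calc (n : ℝ) ≤ ((n + 1 : ℕ) : ℝ) := by push_cast; linarith
      _ = ∑ i ∈ Finset.range (n + 1), (1 : ℝ) := by simp
      _ = ∑ i ∈ Finset.range (n + 1), f i x := by
          refine Finset.sum_congr rfl fun i hi => ?_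
          have : i ≤ n := by rw [Finset.mem_range] at hi; omega
          exact (hf1 i (hanti this hx)).symm
      _ ≤ ∑ i ∈ Finset.range k, f i x :=
          Finset.sum_le_sum_of_subset_of_nonneg (Finset.range_subset_range.2 hnk)
            fun i _ _ => (hf2 i x).1

/-- A growing function in a normal space which is a countable union of closed countably compact
sets. -/
lemma exists_growing_cc [T2Space X] [NormalSpace X] (T : ℕ → Set X)
    (hTc : ∀ n, IsClosed (T n)) (hTu : ⋃ n, T n = univ) (hcc : ∀ n, CC (T n))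
    (Z : ℕ → Set X) (hZ : ∀ n, IsClosed (Z n)) (hanti : Antitone Z) (hemp : ⋂ n, Z n = ∅) :
    ∃ f : X → ℝ, Continuous f ∧ (∀ x, 0 ≤ f x) ∧ (∀ n, ∀ x ∈ Z n, (n : ℝ) ≤ f x) := by
  classical
  let I : ℕ → Set ℕ := fun n => {k | k ≤ n ∧ Disjoint (T k) (Z n)}
  have hIfin : ∀ n, (I n).Finite := fun n => (finite_le_nat n).subset fun i hi => hi.1
  let K : ℕ → Set X := fun n => ⋃ k ∈ I n, T k
  have hKc : ∀ n, IsClosed (K n) := fun n => (hIfin n).isClosed_biUnion fun i _ => hTc _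
  have hKZ : ∀ n, Disjoint (K n) (Z n) := fun n => Set.disjoint_left.2 fun x hx hx' => by
    obtain ⟨i, hi, hxi⟩ := mem_iUnion₂.1 hx
    exact Set.disjoint_left.1 hi.2 hxi hx'
  have hnx : ∀ (n : ℕ) (V : Set X), ∃ O : Set X, IsOpen O ∧ (IsClosed V → Disjoint V (Z n) →
      K n ∪ V ⊆ O ∧ Disjoint (closure O) (Z n)) := by
    intro n V
    by_cases hV : IsClosed V ∧ Disjoint V (Z n)
    · obtain ⟨O, hO, h1, h2⟩ := normal_exists_closure_subset ((hKc n).union hV.1)
        (hZ n).isOpen_compl (fun x hx hx' => by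
          rcases hx with hx | hx
          · exact Set.disjoint_left.1 (hKZ n) hx hx'
          · exact Set.disjoint_left.1 hV.2 hx hx')
      exact ⟨O, hO, fun _ _ => ⟨h1, Set.disjoint_left.2 fun x hx hx' => h2 hx hx'⟩⟩
    · exact ⟨∅, isOpen_empty, fun h1 h2 => (hV ⟨h1, h2⟩).elim⟩
  choose nx hnx1 hnx2 using hnx
  let O : ℕ → Set X := fun n => Nat.rec (nx 0 ∅) (fun n V => nx (n + 1) (closure V)) n
  have hOs : ∀ n, O (n + 1) = nx (n + 1) (closure (O n)) := fun n => rfl
  have hOo : ∀ n, IsOpen (O n) := by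
    intro n
    cases n with
    | zero => exact hnx1 0 ∅
    | succ n => exact hnx1 _ _
  have hOZ : ∀ n, K n ⊆ O n ∧ Disjoint (closure (O n)) (Z n) := by
    intro n
    induction n with
    | zero =>
      obtain ⟨h1, h2⟩ := hnx2 0 ∅ isClosed_empty (by simp)
      exact ⟨subset_union_left.trans h1, h2⟩
    | succ n ih =>
      obtain ⟨h1, h2⟩ := hnx2 (n + 1) (closure (O n)) isClosed_closure
        (ih.2.mono_right (hanti (Nat.le_succ n)))
      exact ⟨subset_union_left.trans h1, h2⟩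
  have hOO : ∀ n, closure (O n) ⊆ O (n + 1) := by
    intro n
    obtain ⟨h1, -⟩ := hnx2 (n + 1) (closure (O n)) isClosed_closure
      ((hOZ n).2.mono_right (hanti (Nat.le_succ n)))
    exact subset_union_right.trans h1
  have hmono : Monotone (fun n => closure (O n)) := monotone_nat_of_le_succ fun n =>
    (hOO n).trans subset_closure
  refine exists_growing_of_cover Z hZ hanti (fun n => closure (O n)) O
    (fun n => isClosed_closure) hOo (fun n => subset_closure) (fun m n hmn => hmono hmn)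
    (fun n => (hOZ n).2) (fun x => ?_)
  have : x ∈ ⋃ n, T n := by rw [hTu]; exact mem_univ x
  obtain ⟨k, hk⟩ := mem_iUnion.1 this
  obtain ⟨j, hj⟩ := hcc k Z hZ hanti hemp
  refine ⟨max k j, (hOZ _).1 (mem_iUnion₂.2 ⟨k, ⟨le_max_left _ _, ?_⟩, hk⟩)⟩
  exact hj.mono_right (hanti (le_max_right _ _))

/-- Near each non-isolated point there is a point in the closure of a sequence of other points. -/
lemma exists_cluster_seq_cc [T2Space X] [RegularSpace X] (T : ℕ → Set X)
    (hTu : ⋃ n, T n = univ) (hcc : ∀ n, CC (T n)) {a : X}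
    (ha : a ∈ nonIsolated X) {G : Set X} (hG : G ∈ 𝓝 a) :
    ∃ (z : X) (s : ℕ → X), z ∈ G ∧ (∀ i, s i ∈ G) ∧ (∀ i, s i ≠ z) ∧
      z ∈ closure (range s) := by
  classical
  obtain ⟨C, hC, hCc, hCG⟩ := exists_mem_nhds_isClosed_subset hG
  -- it is enough to find a countable set
  have key : ∀ (z : X) (S : Set X), z ∈ G → S ⊆ G → S.Countable → z ∉ S → z ∈ closure S →
      ∃ (z : X) (s : ℕ → X), z ∈ G ∧ (∀ i, s i ∈ G) ∧ (∀ i, s i ≠ z) ∧
        z ∈ closure (range s) := by
    intro z S hz hSG hS hzS hcl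
    have hSne : S.Nonempty := by
      by_contra hcon
      rw [not_nonempty_iff_eq_empty] at hcon
      rw [hcon, closure_empty] at hcl
      exact hcl
    obtain ⟨s, rfl⟩ := hS.exists_eq_range hSne
    exact ⟨z, s, hz, fun i => hSG ⟨i, rfl⟩, fun i h => hzS ⟨i, h⟩, hcl⟩
  by_cases hinf : ∃ k, (C ∩ T k).Infinite
  · obtain ⟨k, hk⟩ := hinf
    let e := hk.natEmbedding
    have hemem : ∀ n, (e n : X) ∈ C ∩ T k := fun n => (e n).2
    have heinj : ∀ m n, (e m : X) = e n → m = n := fun m n h => e.injective (Subtype.ext h)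
    let D : ℕ → Set X := fun j => closure ((fun n => (e n : X)) '' {n | j ≤ n})
    have hDanti : Antitone D := fun i j hij => closure_mono (image_mono fun n hn =>
      le_trans hij hn)
    have hDC : ∀ j, D j ⊆ C := fun j => closure_minimal (by
      rintro _ ⟨n, _, rfl⟩
      exact (hemem n).1) hCc
    have hne : (⋂ j, D j) ≠ ∅ := by
      intro hemp
      obtain ⟨j, hj⟩ := hcc k D (fun j => isClosed_closure) hDanti hemp
      exact Set.disjoint_left.1 hj (hemem j).2 (subset_closure ⟨j, le_refl j, rfl⟩)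
    obtain ⟨z, hz⟩ := Set.nonempty_iff_ne_empty.2 hne
    have hz' := mem_iInter.1 hz
    refine key z ((range fun n => (e n : X)) \ {z}) (hCG (hDC 0 (hz' 0))) ?_
      ((countable_range _).mono sdiff_subset) (fun h => h.2 rfl) ?_
    · rintro _ ⟨⟨n, rfl⟩, _⟩
      exact hCG (hemem n).1
    · by_cases hzr : ∃ n0, (e n0 : X) = z
      · obtain ⟨n0, hn0⟩ := hzr
        refine closure_mono ?_ (hz' (n0 + 1))
        rintro _ ⟨n, hn, rfl⟩
        refine ⟨⟨n, rfl⟩, fun h => ?_⟩
        have h1 : (e n : X) = z := h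
        have h2 := heinj n n0 (h1.trans hn0.symm)
        have h3 : n0 + 1 ≤ n := hn
        omega
      · refine closure_mono ?_ (hz' 0)
        rintro _ ⟨n, _, rfl⟩
        exact ⟨⟨n, rfl⟩, fun h => hzr ⟨n, h⟩⟩
  · push Not at hinf
    have hCcount : C.Countable := by
      have h1 : C = ⋃ k, C ∩ T k := by
        rw [← inter_iUnion, hTu, inter_univ]
      rw [h1]
      exact countable_iUnion fun k => (not_infinite.1 (fun h => by
        have := hinf k
        exact h this)).countable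
    have hne := neBot_of_nonIsolated ha
    refine key a (C \ {a}) (mem_of_mem_nhds hG) (fun x hx => hCG hx.1)
      (hCcount.mono sdiff_subset) (fun h => h.2 rfl) ?_
    rw [mem_closure_iff_clusterPt, ← accPt_principal_iff_clusterPt, accPt_iff_frequently]
    have h2 : ∃ᶠ y in 𝓝[≠] a, y ∈ C := (Filter.Eventually.frequently
      (nhdsWithin_le_nhds hC))
    rw [frequently_nhdsWithin_iff] at h2
    exact h2.mono fun y hy => ⟨hy.2, hy.1⟩

end Pool.Agent.H78.PreT
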