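import Pool.Agent.H78.PreT.Half
import Pool.Agent.H73.PreorderNec

/-!
# Spaces whose non-isolated points form a discrete set
-/

namespace Pool.Agent.H78.PreT

open Set Filter Topology Pool.Agent.H73.Preord

variable {X : Type*} [TopologicalSpace X]

/-- Separation of closed relations gives the half separation of closed preorders if the
non-isolated points have a disjoint open expansion and form a discrete set. -/
theorem halfSep_of_expansion (h : RelSep X)
    (hcl : ∀ T ⊆ nonIsolated X, IsClosed T) (O : X → Set X)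
    (hO : ∀ p ∈ nonIsolated X, IsOpen (O p)) (hpO : ∀ p ∈ nonIsolated X, p ∈ O p)
    (hdis : ∀ p ∈ nonIsolated X, ∀ q ∈ nonIsolated X, ∀ x, x ∈ O p → x ∈ O q → p = q)
    {r : X → X → Prop} (hr : IsClosedPreorder r) : HalfSep r := by
  intro A B hA hA' hB hB' hAB
  set N := nonIsolated X with hN
  set F' : Set (X × X) := {p | r p.1 p.2 ∧ ∃ q ∈ N \ A, p.1 ∈ O q ∧ ¬ r q p.2} with hF'
  have hFr : closure F' ⊆ {p : X × X | r p.1 p.2} :=
    closure_minimal (fun p hp => hp.1) hr.isClosed
  have h1 : Disjoint (closure {y | ∃ b ∈ N \ A, (b, y) ∈ closure F'}) A := by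
    have hsub : {y | ∃ b ∈ N \ A, (b, y) ∈ closure F'} ⊆ N \ A := by
      rintro y ⟨b, hb, hby⟩
      have hrby : r b y := hFr hby
      refine ⟨?_, fun hyA => hb.2 (hA' b y hrby hyA)⟩
      by_contra hyN
      have hyo : IsOpen ({y} : Set X) := by
        by_contra hcon
        exact hyN hcon
      obtain ⟨⟨w, y'⟩, ⟨hw, hy'⟩, hF⟩ := mem_closure_iff.1 hby (O b ×ˢ {y})
        ((hO b hb.1).prod hyo) ⟨hpO b hb.1, rfl⟩
      have hy'' : y' = y := hy'
      subst hy''
      obtain ⟨_, q, hq, hwq, hqy⟩ := hF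
      have : q = b := hdis q hq.1 b hb.1 w hwq hw
      rw [this] at hqy
      exact hqy hrby
    have hc : closure {y | ∃ b ∈ N \ A, (b, y) ∈ closure F'} ⊆ N \ A :=
      closure_minimal hsub (hcl _ sdiff_subset)
    exact Set.disjoint_left.2 fun x hx hx' => (hc hx).2 hx'
  have h2 : Disjoint (closure {x | ∃ a ∈ A, (x, a) ∈ closure F'}) (N \ A) := by
    have hsub : {x | ∃ a ∈ A, (x, a) ∈ closure F'} ⊆ A := by
      rintro x ⟨a, ha, hxa⟩
      exact hA' x a (hFr hxa) ha
    exact Set.disjoint_left.2 fun x hx hx' => hx'.2 (closure_minimal hsub hA hx)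
  obtain ⟨U, V, hU, hV, hAU, hBV, hUV⟩ := h (closure F') A (N \ A) isClosed_closure hA
    (hcl _ sdiff_subset) (Set.disjoint_left.2 fun x hx hx' => hx'.2 hx) h1 h2
  refine ⟨U ∩ Bᶜ, dHull r (U ∩ Bᶜ), hU.inter hB.isOpen_compl, ?_,
    isDecr_dHull hr.isPreorder _, fun a ha => ⟨hAU ha, fun hb => Set.disjoint_left.1 hAB ha hb⟩,
    subset_dHull hr.isPreorder _, ?_⟩
  · refine isClosed_of_closure_subset fun x hx => ?_
    by_cases hxN : x ∈ N
    · by_cases hxA : x ∈ A
      · exact subset_dHull hr.isPreorder _ ⟨hAU hxA, fun hb => Set.disjoint_left.1 hAB hxA hb⟩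
      · by_contra hxE
        obtain ⟨w, ⟨hwV, hwO⟩, y, hy, hwy⟩ := mem_closure_iff.1 hx (V ∩ O x)
          (hV.inter (hO x hxN)) ⟨hBV ⟨hxN, hxA⟩, hpO x hxN⟩
        exact hUV w hwV y hy.1 (subset_closure ⟨hwy, x, ⟨hxN, hxA⟩, hwO,
          fun hxy => hxE ⟨y, hy, hxy⟩⟩)
    · have hxo : IsOpen ({x} : Set X) := by
        by_contra hcon
        exact hxN hcon
      obtain ⟨w, hw, hwE⟩ := mem_closure_iff.1 hx {x} hxo rfl
      have : w = x := hw
      rw [← this]; exact hwE
  · exact Set.disjoint_left.2 fun x hx hx' => by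
      obtain ⟨y, hy, hxy⟩ := hx
      exact hy.2 (hB' y x hxy hx')

lemma discr_of_discreteTopology (h : DiscreteTopology (nonIsolated X)) :
    Discr (nonIsolated X) := by
  intro x
  by_cases hx : x ∈ nonIsolated X
  · have h1 := (discreteTopology_subtype_iff'.1 h) x hx
    obtain ⟨U, hU, hU'⟩ := h1
    refine ⟨U, hU.mem_nhds (by
      have : x ∈ U ∩ nonIsolated X := by rw [hU']; rfl
      exact this.1), ?_⟩
    rw [hU']
    exact finite_singleton x
  · refine ⟨(nonIsolated X)ᶜ, isClosed_nonIsolated.isOpen_compl.mem_nhds hx, ?_⟩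
    rw [compl_inter_self]
    exact finite_empty

/-- For a paracompact Hausdorff space whose non-isolated points form a discrete set, all closed
preorders are weakly continuous if and only if the quotient condition holds. -/
theorem property_iff_quotient_of_discrete [T2Space X] [ParacompactSpace X]
    (h : DiscreteTopology (nonIsolated X)) :
    ClosedPreordersWeaklyContinuous X ↔ QuotientCondition X := by
  classical
  rw [← relSep_iff_quotient]
  refine ⟨relSep_of_property, fun hs => property_of_half fun r hr => ?_⟩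
  have hd := discr_of_discreteTopology h
  obtain ⟨N, hN1, hN2, _, hN4⟩ := exists_expansion hd
  refine halfSep_of_expansion hs (fun T hT => (hd.mono hT).isClosed)
    (fun x => if hx : x ∈ nonIsolated X then N ⟨x, hx⟩ else ∅) ?_ ?_ ?_ hr
  · intro p hp
    simp only [hp, dite_true]
    exact hN1 _
  · intro p hp
    simp only [hp, dite_true]
    exact hN2 ⟨p, hp⟩
  · intro p hp q hq x
    simp only [hp, hq, dite_true]
    intro h3 h4
    have := hN4 _ _ x h3 h4
    simpa using this

end Pool.Agent.H78.PreT
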