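import Pool.Agent.H78.PreT.Half

/-!
# Continuous functions growing along decreasing sequences of closed sets
-/

namespace Pool.Agent.H78.PreT

open Set Filter Topology Pool.Agent.H73.Preord

variable {X : Type*} [TopologicalSpace X]

/-- In a Lindelöf normal space, for a decreasing sequence of closed sets with empty intersection
there is a continuous function which is at least `n` on the `n`-th set, and bounded on a closed
set which misses one of them. -/
lemma exists_growing [T2Space X] [NormalSpace X] [RegularSpace X] [LindelofSpace X]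
    (Z : ℕ → Set X) (hZ : ∀ n, IsClosed (Z n)) (hanti : Antitone Z) (hemp : ⋂ n, Z n = ∅)
    (A : Set X) (hA : IsClosed A) (j0 : ℕ) (hj0 : Disjoint A (Z j0)) :
    ∃ f : X → ℝ, Continuous f ∧ (∀ x, 0 ≤ f x) ∧ (∀ n, ∀ x ∈ Z n, (n : ℝ) ≤ f x) ∧
      ∀ x ∈ A, f x ≤ j0 := by
  classical
  rcases isEmpty_or_nonempty X with hX | hX
  · exact ⟨fun _ => 0, continuous_const, fun _ => le_rfl, fun n x => hX.elim x,
      fun x => hX.elim x⟩
  have h1 : ∀ x : X, ∃ n, x ∉ Z n := by
    intro x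
    by_contra hcon
    push Not at hcon
    have : x ∈ ⋂ n, Z n := mem_iInter.2 hcon
    rw [hemp] at this
    exact this
  choose N hN using h1
  have h2 : ∀ x : X, ∃ V ∈ 𝓝 x, IsClosed V ∧ V ⊆ (Z (N x))ᶜ := fun x =>
    exists_mem_nhds_isClosed_subset ((hZ (N x)).isOpen_compl.mem_nhds (hN x))
  choose V hV hVc hVZ using h2
  obtain ⟨t, ht, htU⟩ := LindelofSpace.elim_nhds_subcover (fun x => interior (V x))
    (fun x => interior_mem_nhds.2 (hV x))
  have htne : t.Nonempty := by
    obtain ⟨x⟩ := hX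
    have : x ∈ ⋃ y ∈ t, interior (V y) := by rw [htU]; exact mem_univ x
    obtain ⟨y, hy, _⟩ := mem_iUnion₂.1 this
    exact ⟨y, hy⟩
  obtain ⟨e, rfl⟩ := ht.exists_eq_range htne
  -- the finite unions
  let I : ℕ → Set ℕ := fun n => {i | i < n ∧ N (e i) ≤ n}
  have hIfin : ∀ n, (I n).Finite := fun n => (finite_lt_nat n).subset fun i hi => hi.1
  have hImono : ∀ m n, m ≤ n → I m ⊆ I n := fun m n hmn i hi =>
    ⟨hi.1.trans_le hmn, hi.2.trans hmn⟩
  let W : ℕ → Set X := fun n => ⋃ i ∈ I n, V (e i)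
  let W' : ℕ → Set X := fun n => ⋃ i ∈ I n, interior (V (e i))
  have hWc : ∀ n, IsClosed (W n) := fun n => (hIfin n).isClosed_biUnion fun i _ => hVc _
  have hW'o : ∀ n, IsOpen (W' n) := fun n => isOpen_biUnion fun i _ => isOpen_interior
  have hW'W : ∀ n, W' n ⊆ W n := fun n => iUnion₂_mono fun i _ => interior_subset
  have hWmono : ∀ m n, m ≤ n → W m ⊆ W n := fun m n hmn =>
    biUnion_subset_biUnion_left (hImono m n hmn)
  have hWZ : ∀ n, Disjoint (W n) (Z n) := fun n => Set.disjoint_left.2 fun x hx hx' => by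
    obtain ⟨i, hi, hxi⟩ := mem_iUnion₂.1 hx
    exact hVZ _ hxi (hanti hi.2 hx')
  have hcov : ∀ x, ∃ n, x ∈ W' n := by
    intro x
    have : x ∈ ⋃ y ∈ range e, interior (V y) := by rw [htU]; exact mem_univ x
    obtain ⟨y, ⟨i, rfl⟩, hxy⟩ := mem_iUnion₂.1 this
    exact ⟨max (i + 1) (N (e i)), mem_iUnion₂.2 ⟨i, ⟨lt_of_lt_of_le (Nat.lt_succ_self i)
      (le_max_left _ _), le_max_right _ _⟩, hxy⟩⟩
  -- the Urysohn functions
  have h3 : ∀ n, ∃ f : C(X, ℝ), EqOn f 0 (W n ∪ (if j0 ≤ n then A else ∅)) ∧ EqOn f 1 (Z n) ∧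
      ∀ x, f x ∈ Icc (0 : ℝ) 1 := by
    intro n
    refine exists_continuous_zero_one_of_isClosed ((hWc n).union ?_) (hZ n) ?_
    · split_ifs
      · exact hA
      · exact isClosed_empty
    · rw [disjoint_union_left]
      refine ⟨hWZ n, ?_⟩
      split_ifs with hn
      · exact hj0.mono_right (hanti hn)
      · exact disjoint_bot_left
  choose f hf0 hf1 hf2 using h3
  have hzero : ∀ k n x, k ≤ n → x ∈ W' k → f n x = 0 := fun k n x hkn hx =>
    hf0 n (Or.inl (hWmono k n hkn (hW'W k hx)))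
  have hsupp : ∀ k x, x ∈ W' k → ∑ᶠ n, f n x = ∑ n ∈ Finset.range k, f n x := by
    intro k x hx
    refine finsum_eq_sum_of_support_subset _ ?_
    intro n hn
    rw [Finset.coe_range, mem_Iio]
    by_contra hcon
    exact hn (hzero k n x (not_lt.1 hcon) hx)
  refine ⟨fun x => ∑ᶠ n, f n x, ?_, ?_, ?_, ?_⟩
  · refine continuous_finsum (fun n => (f n).continuous) ?_
    intro x
    obtain ⟨k, hk⟩ := hcov x
    refine ⟨W' k, (hW'o k).mem_nhds hk, (finite_lt_nat k).subset ?_⟩
    rintro n ⟨y, hy, hyk⟩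
    by_contra hcon
    exact hy (hzero k n y (not_lt.1 hcon) hyk)
  · intro x
    exact finsum_nonneg fun n => (hf2 n x).1
  · intro n x hx
    obtain ⟨k, hk⟩ := hcov x
    simp only
    rw [hsupp k x hk]
    have hnk : n + 1 ≤ k := by
      by_contra hcon
      have h4 := hzero k n x (by omega) hk
      have h5 := hf1 n hx
      rw [h4] at h5
      simp at h5
    calc (n : ℝ) ≤ ((n + 1 : ℕ) : ℝ) := by push_cast; linarith
      _ = ∑ i ∈ Finset.range (n + 1), (1 : ℝ) := by simp
      _ = ∑ i ∈ Finset.range (n + 1), f i x := by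
          refine Finset.sum_congr rfl fun i hi => ?_
          have : i ≤ n := by rw [Finset.mem_range] at hi; omega
          exact (hf1 i (hanti this hx)).symm
      _ ≤ ∑ i ∈ Finset.range k, f i x :=
          Finset.sum_le_sum_of_subset_of_nonneg (Finset.range_subset_range.2 hnk)
            fun i _ _ => (hf2 i x).1
  · intro x hx
    have : ∑ᶠ n, f n x = ∑ n ∈ Finset.range j0, f n x := by
      refine finsum_eq_sum_of_support_subset _ ?_
      intro n hn
      rw [Finset.coe_range, mem_Iio]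
      by_contra hcon
      refine hn (hf0 n (Or.inr ?_))
      rw [if_pos (not_lt.1 hcon)]
      exact hx
    simp only
    rw [this]
    calc ∑ n ∈ Finset.range j0, f n x ≤ ∑ n ∈ Finset.range j0, (1 : ℝ) :=
          Finset.sum_le_sum fun i _ => (hf2 i x).2
      _ = j0 := by simp

/-- The condition on continuous functions: for a closed set `A` and a sequence of continuous real
functions each of which is bounded on `A` there is a neighbourhood of `A` on which each of them is
bounded. -/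
def FunCond (X : Type*) [TopologicalSpace X] : Prop :=
  ∀ A : Set X, IsClosed A → ∀ f : ℕ → X → ℝ, (∀ n, Continuous (f n)) →
    (∀ n, Bornology.IsBounded (f n '' A)) →
    ∃ U : Set X, IsOpen U ∧ A ⊆ U ∧ ∀ n, Bornology.IsBounded (f n '' U)

/-- The same with decreasing sequences of closed sets. -/
def SeqCond (X : Type*) [TopologicalSpace X] : Prop :=
  ∀ A : Set X, IsClosed A → ∀ Z : ℕ → ℕ → Set X, (∀ m j, IsClosed (Z m j)) →
    (∀ m, Antitone (Z m)) → (∀ m, ⋂ j, Z m j = ∅) → (∀ m, ∃ j, Disjoint A (Z m j)) →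
    ∃ U : Set X, IsOpen U ∧ A ⊆ U ∧ ∀ m, ∃ j, Disjoint U (Z m j)

omit [TopologicalSpace X] in
lemma isBounded_image_iff {f : X → ℝ} {A : Set X} :
    Bornology.IsBounded (f '' A) ↔ ∃ b : ℝ, ∀ x ∈ A, |f x| ≤ b := by
  rw [isBounded_iff_forall_norm_le]
  constructor
  · rintro ⟨C, hC⟩
    exact ⟨C, fun x hx => hC _ ⟨x, hx, rfl⟩⟩
  · rintro ⟨C, hC⟩
    exact ⟨C, by rintro _ ⟨x, hx, rfl⟩; exact hC x hx⟩

theorem seqCond_of_funCond [T2Space X] [NormalSpace X] [RegularSpace X] [LindelofSpace X]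
    (h : FunCond X) : SeqCond X := by
  intro A hA Z hZ hanti hemp hdis
  choose j0 hj0 using hdis
  choose f hf1 hf2 hf3 hf4 using fun m => exists_growing (Z m) (hZ m) (hanti m) (hemp m) A hA
    (j0 m) (hj0 m)
  obtain ⟨U, hU, hAU, hb⟩ := h A hA f hf1 (fun m => isBounded_image_iff.2
    ⟨j0 m, fun x hx => by rw [abs_of_nonneg (hf2 m x)]; exact hf4 m x hx⟩)
  refine ⟨U, hU, hAU, fun m => ?_⟩
  obtain ⟨b, hb⟩ := isBounded_image_iff.1 (hb m)
  obtain ⟨j, hj⟩ := exists_nat_gt b
  refine ⟨j, Set.disjoint_left.2 fun x hx hx' => ?_⟩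
  have h1 := hb x hx
  have h2 := hf3 m j x hx'
  rw [abs_of_nonneg (hf2 m x)] at h1
  linarith

end Pool.Agent.H78.PreT
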