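import Pool.Agent.H78.PreT.Sep

/-!
# Normality from closed decreasing neighbourhoods
-/

namespace Pool.Agent.H78.PreT

open Set Filter Topology Pool.Agent.H73.Preord

variable {X : Type*} [TopologicalSpace X]

/-- Every closed decreasing set has a closed decreasing neighbourhood missing a given disjoint
closed increasing set. -/
def HalfSep (r : X → X → Prop) : Prop :=
  ∀ A B : Set X, IsClosed A → IsDecr r A → IsClosed B → IsIncr r B → Disjoint A B →
    ∃ M E : Set X, IsOpen M ∧ IsClosed E ∧ IsDecr r E ∧ A ⊆ M ∧ M ⊆ E ∧ Disjoint E B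

/-- The invariant of the alternating construction. -/
structure Pr (r : X → X → Prop) (pq : Set X × Set X) : Prop where
  closed1 : IsClosed pq.1
  closed2 : IsClosed pq.2
  decr : IsDecr r pq.1
  incr : IsIncr r pq.2
  disj : Disjoint pq.1 pq.2

lemma Pr.next {r : X → X → Prop} (h1 : HalfSep r) (h2 : HalfSep (fun x y => r y x))
    (pq : Set X × Set X) (h : Pr r pq) :
    ∃ pq' : Set X × Set X, Pr r pq' ∧ (∃ M, IsOpen M ∧ pq.1 ⊆ M ∧ M ⊆ pq'.1) ∧
      (∃ M, IsOpen M ∧ pq.2 ⊆ M ∧ M ⊆ pq'.2) := by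
  obtain ⟨M, E, hM, hE, hE', hAM, hME, hEB⟩ := h1 pq.1 pq.2 h.closed1 h.decr h.closed2 h.incr
    h.disj
  obtain ⟨N, G, hN, hG, hG', hBN, hNG, hGE⟩ := h2 pq.2 E h.closed2
    (fun z x hzx hx => h.incr z x hzx hx) hE (fun z x hzx hx => hE' z x hzx hx) hEB.symm
  exact ⟨(E, G), ⟨hE, hG, hE', fun z x hzx hx => hG' z x hzx hx, hGE.symm⟩,
    ⟨M, hM, hAM, hME⟩, ⟨N, hN, hBN, hNG⟩⟩

theorem isNormalRel_of_half {r : X → X → Prop} (h1 : HalfSep r)
    (h2 : HalfSep (fun x y => r y x)) : IsNormalRel r := by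
  intro A B hA hA' hB hB' hAB
  choose nxt hn1 hn2 hn3 using fun pq => Pr.next (r := r) h1 h2 pq
  let sq : ℕ → {pq : Set X × Set X // Pr r pq} := fun n =>
    Nat.rec ⟨(A, B), ⟨hA, hB, hA', hB', Set.disjoint_iff_inter_eq_empty.2 hAB⟩⟩
      (fun _ pq => ⟨nxt pq.1 pq.2, hn1 pq.1 pq.2⟩) n
  have s1 : ∀ n, ∃ M, IsOpen M ∧ (sq n).1.1 ⊆ M ∧ M ⊆ (sq (n + 1)).1.1 :=
    fun n => hn2 (sq n).1 (sq n).2
  have s2 : ∀ n, ∃ M, IsOpen M ∧ (sq n).1.2 ⊆ M ∧ M ⊆ (sq (n + 1)).1.2 :=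
    fun n => hn3 (sq n).1 (sq n).2
  have m1 : Monotone (fun n => (sq n).1.1) := monotone_nat_of_le_succ fun n => by
    obtain ⟨M, _, h3, h4⟩ := s1 n
    exact h3.trans h4
  have m2 : Monotone (fun n => (sq n).1.2) := monotone_nat_of_le_succ fun n => by
    obtain ⟨M, _, h3, h4⟩ := s2 n
    exact h3.trans h4
  refine ⟨⋃ n, (sq n).1.1, ⋃ n, (sq n).1.2, ?_, ?_, ?_, ?_, ?_, ?_, ?_⟩
  · rw [isOpen_iff_mem_nhds]
    intro x hx
    obtain ⟨n, hn⟩ := mem_iUnion.1 hx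
    obtain ⟨M, hM, h3, h4⟩ := s1 n
    exact Filter.mem_of_superset (hM.mem_nhds (h3 hn)) (h4.trans
      (subset_iUnion (fun n => (sq n).1.1) (n + 1)))
  · intro z x hzx hx
    obtain ⟨n, hn⟩ := mem_iUnion.1 hx
    exact mem_iUnion.2 ⟨n, (sq n).2.decr z x hzx hn⟩
  · rw [isOpen_iff_mem_nhds]
    intro x hx
    obtain ⟨n, hn⟩ := mem_iUnion.1 hx
    obtain ⟨M, hM, h3, h4⟩ := s2 n
    exact Filter.mem_of_superset (hM.mem_nhds (h3 hn)) (h4.trans
      (subset_iUnion (fun n => (sq n).1.2) (n + 1)))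
  · intro z x hzx hx
    obtain ⟨n, hn⟩ := mem_iUnion.1 hx
    exact mem_iUnion.2 ⟨n, (sq n).2.incr z x hzx hn⟩
  · exact subset_iUnion (fun n => (sq n).1.1) 0
  · exact subset_iUnion (fun n => (sq n).1.2) 0
  · apply Set.eq_empty_of_forall_notMem
    rintro x ⟨hx1, hx2⟩
    obtain ⟨n, hn⟩ := mem_iUnion.1 hx1
    obtain ⟨m, hm⟩ := mem_iUnion.1 hx2
    exact Set.disjoint_left.1 (sq (max n m)).2.disj (m1 (le_max_left n m) hn)
      (m2 (le_max_right n m) hm)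

/-- If all closed preorders satisfy the half separation, the space has the property. -/
theorem property_of_half (h : ∀ r : X → X → Prop, IsClosedPreorder r → HalfSep r) :
    ClosedPreordersWeaklyContinuous X := fun r hr =>
  weaklyContinuous_of_multiUtility (hasMultiUtility_of_normal hr
    (isNormalRel_of_half (h r hr) (h _ (isClosedPreorder_swap hr))))

end Pool.Agent.H78.PreT
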