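import Pool.Agent.H78.PreT.Tree
import Pool.Agent.H78.PreT.Nec
import Pool.Agent.H73.PreorderSuff2

/-!
# Spaces whose non-isolated points have a σ-compact neighbourhood
-/

namespace Pool.Agent.H78.PreT

open Set Filter Topology Pool.Agent.H73.Preord

variable {X : Type*} [TopologicalSpace X]

/-- A σ-compact regular Hausdorff space with the condition on functions has the property. -/
theorem halfSep_of_funCond [T2Space X] [RegularSpace X] [SigmaCompactSpace X] (h : FunCond X)
    {r : X → X → Prop} (hr : IsClosedPreorder r) : HalfSep r :=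
  halfSep_of_seqCond (seqCond_of_funCond h) hr

section Clopen

variable {S : Set X}

lemma isOpen_of_nhds (hS : ∀ x ∈ nonIsolated X, S ∈ 𝓝 x) : IsOpen S := by
  rw [isOpen_iff_mem_nhds]
  intro x hx
  by_cases hxN : x ∈ nonIsolated X
  · exact hS x hxN
  · have hxo : IsOpen ({x} : Set X) := by
      by_contra hcon
      exact hxN hcon
    exact Filter.mem_of_superset (hxo.mem_nhds rfl) (singleton_subset_iff.2 hx)

lemma isOpen_singleton_of_notMem (hS : ∀ x ∈ nonIsolated X, S ∈ 𝓝 x) {x : X} (hx : x ∉ S) :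
    IsOpen ({x} : Set X) := by
  by_contra hcon
  exact hx (mem_of_mem_nhds (hS x hcon))

lemma isOpen_of_disjoint (hS : ∀ x ∈ nonIsolated X, S ∈ 𝓝 x) {D : Set X} (hD : D ⊆ Sᶜ) :
    IsOpen D := by
  rw [isOpen_iff_mem_nhds]
  intro x hx
  exact Filter.mem_of_superset ((isOpen_singleton_of_notMem hS (hD hx)).mem_nhds rfl)
    (singleton_subset_iff.2 hx)

lemma isClosed_of_disjoint (hS : ∀ x ∈ nonIsolated X, S ∈ 𝓝 x) {D : Set X} (hD : D ⊆ Sᶜ) :
    IsClosed D := by
  rw [← isOpen_compl_iff]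
  have : Dᶜ = S ∪ (Sᶜ \ D) := by
    ext x
    constructor
    · intro hx
      by_cases hxS : x ∈ S
      · exact Or.inl hxS
      · exact Or.inr ⟨hxS, hx⟩
    · rintro (hx | hx) hxD
      · exact hD hxD hx
      · exact hx.2 hxD
  rw [this]
  exact (isOpen_of_nhds hS).union (isOpen_of_disjoint hS sdiff_subset)

lemma isClosed_of_nhds (hS : ∀ x ∈ nonIsolated X, S ∈ 𝓝 x) : IsClosed S :=
  ⟨isOpen_of_disjoint hS Subset.rfl⟩

lemma relSep_subtype (hS : IsClosed S) (h : RelSep X) : RelSep S := by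
  intro F A B hF hA hB hAB h1 h2
  have he : IsClosedEmbedding (Subtype.val : S → X) := hS.isClosedEmbedding_subtypeVal
  have he2 : IsClosedEmbedding (Prod.map (Subtype.val : S → X) (Subtype.val : S → X)) :=
    he.prodMap he
  have hmemF : ∀ a b : S, ((a : X), (b : X)) ∈ Prod.map Subtype.val Subtype.val '' F ↔
      (a, b) ∈ F := by
    intro a b
    constructor
    · rintro ⟨⟨a', b'⟩, hab, h⟩
      rw [Prod.map_apply, Prod.mk.injEq] at h
      have h3 : a' = a := Subtype.ext h.1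
      have h4 : b' = b := Subtype.ext h.2
      rw [← h3, ← h4]
      exact hab
    · exact fun h => ⟨(a, b), h, rfl⟩
  obtain ⟨U, V, hU, hV, hAU, hBV, hUV⟩ := h (Prod.map Subtype.val Subtype.val '' F)
    (Subtype.val '' A) (Subtype.val '' B) (he2.isClosedMap _ hF) (he.isClosedMap _ hA)
    (he.isClosedMap _ hB) ((disjoint_image_iff Subtype.val_injective).2 hAB)
    (by
      have : {y | ∃ b ∈ (Subtype.val '' B : Set X), (b, y) ∈
          Prod.map Subtype.val Subtype.val '' F} =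
          Subtype.val '' {y : S | ∃ b ∈ B, (b, y) ∈ F} := by
        ext y
        constructor
        · rintro ⟨_, ⟨b, hb, rfl⟩, hy⟩
          obtain ⟨⟨a', b'⟩, hab, h⟩ := hy
          rw [Prod.map_apply, Prod.mk.injEq] at h
          refine ⟨b', ⟨b, hb, ?_⟩, h.2⟩
          have h3 : a' = b := Subtype.ext h.1
          rw [← h3]; exact hab
        · rintro ⟨y, ⟨b, hb, hby⟩, rfl⟩
          exact ⟨b, ⟨b, hb, rfl⟩, (hmemF b y).2 hby⟩
      rw [this, he.closure_image_eq]
      exact (disjoint_image_iff Subtype.val_injective).2 h1)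
    (by
      have : {x | ∃ a ∈ (Subtype.val '' A : Set X), (x, a) ∈
          Prod.map Subtype.val Subtype.val '' F} =
          Subtype.val '' {x : S | ∃ a ∈ A, (x, a) ∈ F} := by
        ext y
        constructor
        · rintro ⟨_, ⟨b, hb, rfl⟩, hy⟩
          obtain ⟨⟨a', b'⟩, hab, h⟩ := hy
          rw [Prod.map_apply, Prod.mk.injEq] at h
          refine ⟨a', ⟨b, hb, ?_⟩, h.1⟩
          have h3 : b' = b := Subtype.ext h.2
          rw [← h3]; exact hab
        · rintro ⟨y, ⟨b, hb, hby⟩, rfl⟩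
          exact ⟨b, ⟨b, hb, rfl⟩, (hmemF y b).2 hby⟩
      rw [this, he.closure_image_eq]
      exact (disjoint_image_iff Subtype.val_injective).2 h2)
  exact ⟨Subtype.val ⁻¹' U, Subtype.val ⁻¹' V, hU.preimage continuous_subtype_val,
    hV.preimage continuous_subtype_val, fun a ha => hAU ⟨a, ha, rfl⟩,
    fun b hb => hBV ⟨b, hb, rfl⟩, fun v hv u hu hvu => hUV v hv u hu ((hmemF v u).2 hvu)⟩

lemma image_nonIsolated (hS : ∀ x ∈ nonIsolated X, S ∈ 𝓝 x) :
    Subtype.val '' (nonIsolated S) = nonIsolated X := by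
  have hSo := isOpen_of_nhds hS
  have h1 : ∀ x : S, IsOpen ({x} : Set S) ↔ IsOpen ({(x : X)} : Set X) := by
    intro x
    rw [hSo.isOpenEmbedding_subtypeVal.isOpen_iff_image_isOpen, image_singleton]
  ext x
  constructor
  · rintro ⟨y, hy, rfl⟩
    exact fun h => hy ((h1 y).2 h)
  · intro hx
    exact ⟨⟨x, mem_of_mem_nhds (hS x hx)⟩, fun h => hx ((h1 _).1 h), rfl⟩

lemma funCond_of_subtype (hS : ∀ x ∈ nonIsolated X, S ∈ 𝓝 x) (h : FunCond S) : FunCond X := by
  intro A hA f hf hb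
  choose b hb using fun n => isBounded_image_iff.1 (hb n)
  obtain ⟨U, hU, hAU, hUb⟩ := h (Subtype.val ⁻¹' A) (hA.preimage continuous_subtype_val)
    (fun n x => f n x) (fun n => (hf n).comp continuous_subtype_val)
    (fun n => isBounded_image_iff.2 ⟨b n, fun x hx => hb n x hx⟩)
  choose b' hb' using fun n => isBounded_image_iff.1 (hUb n)
  refine ⟨Subtype.val '' U ∪ (A \ S), ((isOpen_of_nhds hS).isOpenMap_subtype_val _ hU).union
    (isOpen_of_disjoint hS fun x hx => hx.2), fun x hx => ?_, fun n => ?_⟩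
  · by_cases hxS : x ∈ S
    · exact Or.inl ⟨⟨x, hxS⟩, hAU hx, rfl⟩
    · exact Or.inr ⟨hx, hxS⟩
  · refine isBounded_image_iff.2 ⟨max (b n) (b' n), ?_⟩
    rintro x (⟨y, hy, rfl⟩ | hx)
    · exact (hb' n y hy).trans (le_max_right _ _)
    · exact (hb n x hx.1).trans (le_max_left _ _)

lemma funCond_subtype (hS : ∀ x ∈ nonIsolated X, S ∈ 𝓝 x) (h : FunCond X) : FunCond S := by
  classical
  intro A hA f hf hb
  have hSo := isOpen_of_nhds hS
  let g : ℕ → X → ℝ := fun n x => if hx : x ∈ S then f n ⟨x, hx⟩ else 0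
  have hgS : ∀ n (x : S), g n x = f n x := fun n x => by simp [g]
  have hg : ∀ n, Continuous (g n) := by
    intro n
    rw [continuous_iff_continuousAt]
    intro x
    by_cases hx : x ∈ S
    · have h1 : ContinuousAt (g n ∘ (Subtype.val : S → X)) ⟨x, hx⟩ := by
        have : g n ∘ (Subtype.val : S → X) = f n := funext (hgS n)
        rw [this]
        exact (hf n).continuousAt
      exact hSo.isOpenEmbedding_subtypeVal.continuousAt_iff.1 h1
    · have h1 := isOpen_singleton_of_notMem hS hx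
      rw [isOpen_singleton_iff_nhds_eq_pure] at h1
      rw [ContinuousAt, h1]
      exact tendsto_pure_nhds _ _
  choose b hb using fun n => isBounded_image_iff.1 (hb n)
  obtain ⟨U, hU, hAU, hUb⟩ := h (Subtype.val '' A)
    ((isClosed_of_nhds hS).isClosedEmbedding_subtypeVal.isClosedMap _ hA) g hg
    (fun n => isBounded_image_iff.2 ⟨b n, by
      rintro _ ⟨x, hx, rfl⟩
      rw [hgS]; exact hb n x hx⟩)
  choose b' hb' using fun n => isBounded_image_iff.1 (hUb n)
  refine ⟨Subtype.val ⁻¹' U, hU.preimage continuous_subtype_val,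
    fun a ha => hAU ⟨a, ha, rfl⟩, fun n => isBounded_image_iff.2 ⟨b' n, fun x hx => ?_⟩⟩
  rw [← hgS]
  exact hb' n x hx

lemma halfSep_of_subtype (hS : ∀ x ∈ nonIsolated X, S ∈ 𝓝 x) {r : X → X → Prop}
    (hr : IsClosedPreorder r) (h : HalfSep (fun x y : S => r x y)) : HalfSep r := by
  intro A B hA hA' hB hB' hAB
  obtain ⟨M, E, hM, hE, hE', hAM, hME, hEB⟩ := h (Subtype.val ⁻¹' A) (Subtype.val ⁻¹' B)
    (hA.preimage continuous_subtype_val) (fun z x hzx hx => hA' z x hzx hx)
    (hB.preimage continuous_subtype_val) (fun z x hzx hx => hB' z x hzx hx)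
    (hAB.preimage _)
  have hSc := isClosed_of_nhds hS
  refine ⟨Subtype.val '' M ∪ (A \ S), Subtype.val '' E ∪
    {d | d ∉ S ∧ (d ∈ A ∨ ∃ e ∈ E, r d e)}, ((isOpen_of_nhds hS).isOpenMap_subtype_val _ hM).union
    (isOpen_of_disjoint hS fun x hx => hx.2),
    (hSc.isClosedEmbedding_subtypeVal.isClosedMap _ hE).union
      (isClosed_of_disjoint hS fun x hx => hx.1), ?_, ?_, ?_, ?_⟩
  · rintro z x hzx (⟨e, he, rfl⟩ | ⟨hxS, hx | ⟨e, he, hxe⟩⟩)
    · by_cases hzS : z ∈ S
      · exact Or.inl ⟨⟨z, hzS⟩, hE' ⟨z, hzS⟩ e hzx he, rfl⟩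
      · exact Or.inr ⟨hzS, Or.inr ⟨e, he, hzx⟩⟩
    · by_cases hzS : z ∈ S
      · exact Or.inl ⟨⟨z, hzS⟩, hME (hAM (hA' z x hzx hx)), rfl⟩
      · exact Or.inr ⟨hzS, Or.inl (hA' z x hzx hx)⟩
    · have hze := hr.isPreorder.trans _ _ _ hzx hxe
      by_cases hzS : z ∈ S
      · exact Or.inl ⟨⟨z, hzS⟩, hE' ⟨z, hzS⟩ e hze he, rfl⟩
      · exact Or.inr ⟨hzS, Or.inr ⟨e, he, hze⟩⟩
  · intro x hx
    by_cases hxS : x ∈ S
    · exact Or.inl ⟨⟨x, hxS⟩, hAM hx, rfl⟩
    · exact Or.inr ⟨hx, hxS⟩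
  · rintro x (⟨y, hy, rfl⟩ | hx)
    · exact Or.inl ⟨y, hME hy, rfl⟩
    · exact Or.inr ⟨hx.2, Or.inl hx.1⟩
  · refine Set.disjoint_left.2 ?_
    rintro x (⟨e, he, rfl⟩ | ⟨hxS, hx | ⟨e, he, hxe⟩⟩) hxB
    · exact Set.disjoint_left.1 hEB he hxB
    · exact Set.disjoint_left.1 hAB hx hxB
    · exact Set.disjoint_left.1 hEB he (hB' _ _ hxe hxB)

end Clopen

/-- The characterisation. -/
theorem tfae_main (X : Type*) [TopologicalSpace X] [T2Space X]
    (hX : IsCompact (nonIsolated X) ∨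
      ∃ S : Set X, IsSigmaCompact S ∧ ∀ x ∈ nonIsolated X, S ∈ 𝓝 x) :
    List.TFAE [ClosedPreordersWeaklyContinuous X,
      QuotientCondition X,
      IsCompact (nonIsolated X) ∨ (RegularSpace X ∧ FunCond X)] := by
  tfae_have 1 → 2 := fun h => relSep_iff_quotient.1 (relSep_of_property h)
  tfae_have 2 → 3 := by
    intro h
    have hs := relSep_iff_quotient.2 h
    by_cases hc : IsCompact (nonIsolated X)
    · exact Or.inl hc
    obtain ⟨S, hS, hSn⟩ := hX.resolve_left hc
    have := hs.normalSpace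
    have : T4Space X := ⟨⟩
    have : SigmaCompactSpace S := isSigmaCompact_iff_sigmaCompactSpace.1 hS
    refine Or.inr ⟨inferInstance, funCond_of_subtype hSn
      (funCond_of_relSep (relSep_subtype (isClosed_of_nhds hSn) hs) fun hcon => hc ?_)⟩
    rw [← image_nonIsolated hSn]
    exact hcon.image continuous_subtype_val
  tfae_have 3 → 1 := by
    intro h
    by_cases hc : IsCompact (nonIsolated X)
    · exact property_of_compact hc
    obtain ⟨S, hS, hSn⟩ := hX.resolve_left hc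
    obtain ⟨hreg, hf⟩ := h.resolve_left hc
    have : SigmaCompactSpace S := isSigmaCompact_iff_sigmaCompactSpace.1 hS
    refine property_of_half fun r hr => halfSep_of_subtype hSn hr
      (halfSep_of_funCond (funCond_subtype hSn hf) ⟨⟨fun x => hr.isPreorder.refl _,
        fun x y z hxy hyz => hr.isPreorder.trans _ _ _ hxy hyz⟩, ?_⟩)
    exact hr.isClosed.preimage (f := fun p : S × S => ((p.1 : X), (p.2 : X))) (by fun_prop)
  tfae_finish

end Pool.Agent.H78.PreT
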