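import Pool.Agent.H73.PreorderCC

/-!
# Separation of closed relations, and quotients of the square

`RelSep X`: for a closed relation `F` and disjoint closed sets `A`, `B` such that the closure of
`F[B]` misses `A` and the closure of `F⁻¹[A]` misses `B`, there are open sets `V ⊇ B`, `U ⊇ A` with
`F ∩ (V × U) = ∅`.
-/

namespace Pool.Agent.H78.PreT

open Set Filter Topology Pool.Agent.H73.Preord

/-- The separation property of closed relations. -/
def RelSep (X : Type*) [TopologicalSpace X] : Prop :=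
  ∀ (F : Set (X × X)) (A B : Set X), IsClosed F → IsClosed A → IsClosed B → Disjoint A B →
    Disjoint (closure {y | ∃ b ∈ B, (b, y) ∈ F}) A →
    Disjoint (closure {x | ∃ a ∈ A, (x, a) ∈ F}) B →
    ∃ U V : Set X, IsOpen U ∧ IsOpen V ∧ A ⊆ U ∧ B ⊆ V ∧ ∀ v ∈ V, ∀ u ∈ U, (v, u) ∉ F

/-- The equivalence relation which identifies all points of `A`. -/
def collapseSetoid {X : Type*} (A : Set X) : Setoid X where
  r x y := x = y ∨ (x ∈ A ∧ y ∈ A)
  iseqv := {
    refl := fun x => Or.inl rfl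
    symm := by
      rintro x y (h | h)
      · exact Or.inl h.symm
      · exact Or.inr ⟨h.2, h.1⟩
    trans := by
      rintro x y z (h | h) (h' | h')
      · exact Or.inl (h.trans h')
      · subst h; exact Or.inr h'
      · subst h'; exact Or.inr h
      · exact Or.inr ⟨h.1, h'.2⟩ }

/-- The quotient space `X/A`: the points of `A` are identified. -/
abbrev Collapse {X : Type*} (A : Set X) : Type _ := Quotient (collapseSetoid A)

/-- The quotient map `X → X/A`. -/
def collapse {X : Type*} (A : Set X) : X → Collapse A := Quotient.mk (collapseSetoid A)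

variable {X : Type*} [TopologicalSpace X]

omit [TopologicalSpace X] in
lemma collapse_eq {A : Set X} {x y : X} :
    collapse A x = collapse A y ↔ x = y ∨ (x ∈ A ∧ y ∈ A) :=
  Quotient.eq (r := collapseSetoid A)

lemma continuous_collapse (A : Set X) : Continuous (collapse A) := continuous_quotient_mk'

omit [TopologicalSpace X] in
lemma surjective_collapse (A : Set X) : Function.Surjective (collapse A) :=
  Quotient.mk_surjective

lemma isOpen_collapse_image {A V : Set X} (hV : IsOpen V) (h : A ⊆ V ∨ Disjoint V A) :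
    IsOpen (collapse A '' V) := by
  have hq : IsQuotientMap (collapse A) := isQuotientMap_quotient_mk'
  rw [← hq.isOpen_preimage]
  have : collapse A ⁻¹' (collapse A '' V) = V := by
    ext x
    constructor
    · rintro ⟨y, hy, hxy⟩
      rcases collapse_eq.1 hxy with h1 | ⟨h1, h2⟩
      · rw [← h1]; exact hy
      · rcases h with h | h
        · exact h h2
        · exact (Set.disjoint_left.1 h hy h1).elim
    · exact fun hx => ⟨x, hx, rfl⟩
  rw [this]
  exact hV

/-- The quotient condition implies the separation of closed relations. -/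
theorem relSep_of_quotient
    (h : ∀ A B : Set X, IsClosed A → IsClosed B → Disjoint A B →
      IsQuotientMap (Prod.map (collapse B) (collapse A))) : RelSep X := by
  intro F A B hF hA hB hAB h1 h2
  rcases A.eq_empty_or_nonempty with hAe | ⟨a0, ha0⟩
  · exact ⟨∅, univ, isOpen_empty, isOpen_univ, hAe.subset, subset_univ _,
      fun _ _ u hu => hu.elim⟩
  rcases B.eq_empty_or_nonempty with hBe | ⟨b0, hb0⟩
  · exact ⟨univ, ∅, isOpen_univ, isOpen_empty, subset_univ _, hBe.subset,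
      fun v hv => hv.elim⟩
  have hq := h A B hA hB hAB
  have hAB' : ∀ x, x ∈ A → x ∈ B → False := fun x hx hx' => Set.disjoint_left.1 hAB hx hx'
  have h1' : ∀ x, x ∈ closure {y | ∃ b ∈ B, (b, y) ∈ F} → x ∈ A → False :=
    fun x hx hx' => Set.disjoint_left.1 h1 hx hx'
  have h2' : ∀ x, x ∈ closure {x | ∃ a ∈ A, (x, a) ∈ F} → x ∈ B → False :=
    fun x hx hx' => Set.disjoint_left.1 h2 hx hx'
  set CB := closure {y | ∃ b ∈ B, (b, y) ∈ F} with hCB
  set CA := closure {x | ∃ a ∈ A, (x, a) ∈ F} with hCA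
  set F' : Set (X × X) := F ∪ (B ×ˢ CB) ∪ (CA ×ˢ A) with hF'
  have hF'c : IsClosed F' := (hF.union (hB.prod isClosed_closure)).union
    (isClosed_closure.prod hA)
  have hsat : Prod.map (collapse B) (collapse A) ⁻¹'
      (Prod.map (collapse B) (collapse A) '' F') = F' := by
    ext ⟨x, y⟩
    constructor
    · rintro ⟨⟨x', y'⟩, hp, he⟩
      rw [Prod.map_apply, Prod.map_apply, Prod.mk.injEq] at he
      obtain ⟨e1, e2⟩ := he
      have c1 : ∀ b b' z, b ∈ B → b' ∈ B → (b, z) ∈ F' → (b', z) ∈ F' := by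
        rintro b b' z hb hb' ((hz | hz) | hz)
        · exact Or.inl (Or.inr ⟨hb', subset_closure ⟨b, hb, hz⟩⟩)
        · exact Or.inl (Or.inr ⟨hb', hz.2⟩)
        · exact (h2' b hz.1 hb).elim
      have c2 : ∀ a a' z, a ∈ A → a' ∈ A → (z, a) ∈ F' → (z, a') ∈ F' := by
        rintro a a' z ha ha' ((hz | hz) | hz)
        · exact Or.inr ⟨subset_closure ⟨a, ha, hz⟩, ha'⟩
        · exact (h1' a hz.2 ha).elim
        · exact Or.inr ⟨hz.1, ha'⟩
      have hp1 : (x, y') ∈ F' := by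
        rcases collapse_eq.1 e1 with e | ⟨e, e'⟩
        · rw [← e]; exact hp
        · exact c1 _ _ _ e e' hp
      rcases collapse_eq.1 e2 with e | ⟨e, e'⟩
      · rw [← e]; exact hp1
      · exact c2 _ _ _ e e' hp1
    · exact fun hx => ⟨_, hx, rfl⟩
  have himg : IsClosed (Prod.map (collapse B) (collapse A) '' F') := by
    rw [← hq.isClosed_preimage, hsat]
    exact hF'c
  have hnot : (collapse B b0, collapse A a0) ∈
      (Prod.map (collapse B) (collapse A) '' F')ᶜ := by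
    intro hmem
    have : (b0, a0) ∈ Prod.map (collapse B) (collapse A) ⁻¹'
        (Prod.map (collapse B) (collapse A) '' F') := hmem
    rw [hsat] at this
    rcases this with (hz | hz) | hz
    · exact h1' a0 (subset_closure ⟨b0, hb0, hz⟩) ha0
    · exact h1' a0 hz.2 ha0
    · exact h2' b0 hz.1 hb0
  obtain ⟨V', U', hV', hU', hb, ha, hsub⟩ := isOpen_prod_iff.1 himg.isOpen_compl _ _ hnot
  refine ⟨collapse A ⁻¹' U', collapse B ⁻¹' V', hU'.preimage (continuous_collapse A),
    hV'.preimage (continuous_collapse B), fun a ha' => ?_, fun b hb' => ?_,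
    fun v hv u hu hvu => ?_⟩
  · have : collapse A a = collapse A a0 := collapse_eq.2 (Or.inr ⟨ha', ha0⟩)
    rw [mem_preimage, this]; exact ha
  · have : collapse B b = collapse B b0 := collapse_eq.2 (Or.inr ⟨hb', hb0⟩)
    rw [mem_preimage, this]; exact hb
  · exact hsub (⟨hv, hu⟩ : (collapse B v, collapse A u) ∈ V' ×ˢ U')
      ⟨(v, u), Or.inl (Or.inl hvu), rfl⟩

/-- An auxiliary form of the separation for classes meeting in at most one point. -/
lemma RelSep.subsingleton (h : RelSep X) {F : Set (X × X)} {P Q : Set X} (hF : IsClosed F)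
    (hP : IsClosed P) (hQ : IsClosed Q) (hPQ : (P ∩ Q).Subsingleton)
    (c1 : ∀ p ∈ P, ∀ p' ∈ P, ∀ z, (p, z) ∈ F → (p', z) ∈ F)
    (c2 : ∀ q ∈ Q, ∀ q' ∈ Q, ∀ z, (z, q) ∈ F → (z, q') ∈ F)
    (hd : ∀ p ∈ P, ∀ q ∈ Q, (p, q) ∉ F) :
    ∃ V U : Set X, IsOpen V ∧ IsOpen U ∧ P ⊆ V ∧ Q ⊆ U ∧ ∀ v ∈ V, ∀ u ∈ U, (v, u) ∉ F := by
  -- separation for closed subsets
  have key : ∀ P' Q' : Set X, IsClosed P' → IsClosed Q' → P' ⊆ P → Q' ⊆ Q → Disjoint Q' P' →
      ∃ V U : Set X, IsOpen V ∧ IsOpen U ∧ P' ⊆ V ∧ Q' ⊆ U ∧ ∀ v ∈ V, ∀ u ∈ U, (v, u) ∉ F := by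
    intro P' Q' hP' hQ' hPP hQQ hdis
    have e1 : Disjoint (closure {y | ∃ b ∈ P', (b, y) ∈ F}) Q' := by
      rcases P'.eq_empty_or_nonempty with he | ⟨p0, hp0⟩
      · rw [he]; simp
      have : {y | ∃ b ∈ P', (b, y) ∈ F} = (fun y => (p0, y)) ⁻¹' F := by
        ext y
        constructor
        · rintro ⟨b, hb, hby⟩
          exact c1 b (hPP hb) p0 (hPP hp0) y hby
        · exact fun hy => ⟨p0, hp0, hy⟩
      rw [this, (hF.preimage (by fun_prop)).closure_eq]
      exact Set.disjoint_left.2 fun y hy hy' => hd p0 (hPP hp0) y (hQQ hy') hy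
    have e2 : Disjoint (closure {x | ∃ a ∈ Q', (x, a) ∈ F}) P' := by
      rcases Q'.eq_empty_or_nonempty with he | ⟨q0, hq0⟩
      · rw [he]; simp
      have : {x | ∃ a ∈ Q', (x, a) ∈ F} = (fun x => (x, q0)) ⁻¹' F := by
        ext y
        constructor
        · rintro ⟨b, hb, hby⟩
          exact c2 b (hQQ hb) q0 (hQQ hq0) y hby
        · exact fun hy => ⟨q0, hq0, hy⟩
      rw [this, (hF.preimage (by fun_prop)).closure_eq]
      exact Set.disjoint_left.2 fun y hy hy' => hd y (hPP hy') q0 (hQQ hq0) hy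
    obtain ⟨U, V, hU, hV, hQU, hPV, hUV⟩ := h F Q' P' hF hQ' hP' hdis e1 e2
    exact ⟨V, U, hV, hU, hPV, hQU, hUV⟩
  rcases (P ∩ Q).eq_empty_or_nonempty with he | ⟨w, hwP, hwQ⟩
  · exact key P Q hP hQ Subset.rfl Subset.rfl
      (Set.disjoint_left.2 fun x hx hx' => by
        have : x ∈ P ∩ Q := ⟨hx', hx⟩
        rw [he] at this
        exact this)
  obtain ⟨N1, N2, hN1, hN2, hw1, hw2, hN⟩ := isOpen_prod_iff.1 hF.isOpen_compl w w
    (hd w hwP w hwQ)
  set N := N1 ∩ N2 with hNdef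
  have hNo : IsOpen N := hN1.inter hN2
  have hNN : ∀ v ∈ N, ∀ u ∈ N, (v, u) ∉ F := fun v hv u hu => hN ⟨hv.1, hu.2⟩
  obtain ⟨V2, U2, hV2, hU2, hPV2, hQU2, hsep2⟩ := key (P \ N) Q (hP.sdiff hNo) hQ sdiff_subset
    Subset.rfl (Set.disjoint_left.2 fun x hx hx' => hx'.2 (by
      have : x = w := hPQ ⟨hx'.1, hx⟩ ⟨hwP, hwQ⟩
      rw [this]; exact ⟨hw1, hw2⟩))
  obtain ⟨V3, U3, hV3, hU3, hPV3, hQU3, hsep3⟩ := key P (Q \ N) hP (hQ.sdiff hNo) Subset.rfl
    sdiff_subset (Set.disjoint_left.2 fun x hx hx' => hx.2 (by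
      have : x = w := hPQ ⟨hx', hx.1⟩ ⟨hwP, hwQ⟩
      rw [this]; exact ⟨hw1, hw2⟩))
  refine ⟨(V2 ∪ N) ∩ V3, (U3 ∪ N) ∩ U2, (hV2.union hNo).inter hV3, (hU3.union hNo).inter hU2,
    fun p hp => ⟨?_, hPV3 hp⟩, fun q hq => ⟨?_, hQU2 hq⟩, ?_⟩
  · by_cases hpN : p ∈ N
    · exact Or.inr hpN
    · exact Or.inl (hPV2 ⟨hp, hpN⟩)
  · by_cases hqN : q ∈ N
    · exact Or.inr hqN
    · exact Or.inl (hQU3 ⟨hq, hqN⟩)
  · rintro v ⟨hv, hv3⟩ u ⟨hu, hu2⟩
    rcases hv with hv | hv
    · exact hsep2 v hv u hu2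
    · rcases hu with hu | hu
      · exact hsep3 v hv3 u hu
      · exact hNN v hv u hu

/-- The separation of closed relations implies the quotient condition. -/
theorem quotient_of_relSep [T1Space X] (h : RelSep X) {A B : Set X} (hA : IsClosed A)
    (hB : IsClosed B) (hAB : Disjoint A B) :
    IsQuotientMap (Prod.map (collapse B) (collapse A)) := by
  have hcont : Continuous (Prod.map (collapse B) (collapse A)) :=
    (continuous_collapse B).prodMap (continuous_collapse A)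
  refine (isQuotientMap_iff _).2 ⟨isCoinducing_iff.2
    fun S => ⟨fun hS => ?_, fun hS => hS.preimage hcont⟩,
    (surjective_collapse B).prodMap (surjective_collapse A)⟩
  rw [isOpen_iff_mem_nhds]
  rintro ⟨p, q⟩ hpq
  obtain ⟨x, rfl⟩ := surjective_collapse B p
  obtain ⟨y, rfl⟩ := surjective_collapse A q
  set F : Set (X × X) := (Prod.map (collapse B) (collapse A) ⁻¹' S)ᶜ with hFdef
  have hF : IsClosed F := hS.isClosed_compl
  -- the classes
  obtain ⟨P, hPc, hxP, hP1, hP2⟩ : ∃ P : Set X, IsClosed P ∧ x ∈ P ∧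
      (∀ p ∈ P, collapse B p = collapse B x) ∧ (P = B ∨ (x ∉ B ∧ P = {x})) := by
    by_cases hx : x ∈ B
    · exact ⟨B, hB, hx, fun p hp => collapse_eq.2 (Or.inr ⟨hp, hx⟩), Or.inl rfl⟩
    · exact ⟨{x}, isClosed_singleton, rfl, fun p hp => by rw [hp], Or.inr ⟨hx, rfl⟩⟩
  obtain ⟨Q, hQc, hyQ, hQ1, hQ2⟩ : ∃ Q : Set X, IsClosed Q ∧ y ∈ Q ∧
      (∀ q ∈ Q, collapse A q = collapse A y) ∧ (Q = A ∨ (y ∉ A ∧ Q = {y})) := by
    by_cases hy : y ∈ A
    · exact ⟨A, hA, hy, fun p hp => collapse_eq.2 (Or.inr ⟨hp, hy⟩), Or.inl rfl⟩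
    · exact ⟨{y}, isClosed_singleton, rfl, fun p hp => by rw [hp], Or.inr ⟨hy, rfl⟩⟩
  have hPQ : (P ∩ Q).Subsingleton := by
    rcases hP2 with hP2 | ⟨_, hP2⟩
    · rcases hQ2 with hQ2 | ⟨_, hQ2⟩
      · rintro z ⟨hz, hz'⟩
        rw [hP2] at hz
        rw [hQ2] at hz'
        exact (Set.disjoint_left.1 hAB hz' hz).elim
      · rw [hQ2]
        exact Set.subsingleton_singleton.anti inter_subset_right
    · rw [hP2]
      exact Set.subsingleton_singleton.anti inter_subset_left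
  have hmemF : ∀ a b, (a, b) ∈ F ↔ (collapse B a, collapse A b) ∉ S := fun a b => Iff.rfl
  obtain ⟨V, U, hV, hU, hPV, hQU, hVU⟩ := h.subsingleton hF hPc hQc hPQ
    (fun p hp p' hp' z hz => by
      rw [hmemF] at hz ⊢
      rw [hP1 p' hp', ← hP1 p hp]; exact hz)
    (fun q hq q' hq' z hz => by
      rw [hmemF] at hz ⊢
      rw [hQ1 q' hq', ← hQ1 q hq]; exact hz)
    (fun p hp q hq hz => by
      rw [hmemF, hP1 p hp, hQ1 q hq] at hz
      exact hz hpq)
  -- make them saturated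
  obtain ⟨V', hV', hxV', hV's, hV'V⟩ : ∃ V' : Set X, IsOpen V' ∧ x ∈ V' ∧
      (B ⊆ V' ∨ Disjoint V' B) ∧ V' ⊆ V := by
    rcases hP2 with hP2 | ⟨hxB, _⟩
    · exact ⟨V, hV, hPV hxP, Or.inl (hP2 ▸ hPV), Subset.rfl⟩
    · exact ⟨V ∩ Bᶜ, hV.inter hB.isOpen_compl, ⟨hPV hxP, hxB⟩,
        Or.inr (Set.disjoint_left.2 fun z hz hz' => hz.2 hz'), inter_subset_left⟩
  obtain ⟨U', hU', hyU', hU's, hU'U⟩ : ∃ U' : Set X, IsOpen U' ∧ y ∈ U' ∧
      (A ⊆ U' ∨ Disjoint U' A) ∧ U' ⊆ U := by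
    rcases hQ2 with hQ2 | ⟨hyA, _⟩
    · exact ⟨U, hU, hQU hyQ, Or.inl (hQ2 ▸ hQU), Subset.rfl⟩
    · exact ⟨U ∩ Aᶜ, hU.inter hA.isOpen_compl, ⟨hQU hyQ, hyA⟩,
        Or.inr (Set.disjoint_left.2 fun z hz hz' => hz.2 hz'), inter_subset_left⟩
  refine Filter.mem_of_superset (((isOpen_collapse_image hV' hV's).prod
    (isOpen_collapse_image hU' hU's)).mem_nhds ⟨⟨x, hxV', rfl⟩, ⟨y, hyU', rfl⟩⟩) ?_
  rintro ⟨a, b⟩ ⟨⟨v, hv, rfl⟩, ⟨u, hu, rfl⟩⟩
  by_contra hcon
  exact hVU v (hV'V hv) u (hU'U hu) hcon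

/-- The quotient condition: for all disjoint closed sets `A`, `B` the product of the quotient maps
`X → X/A` and `X → X/B` is a quotient map. -/
def QuotientCondition (X : Type*) [TopologicalSpace X] : Prop :=
  ∀ A B : Set X, IsClosed A → IsClosed B → Disjoint A B →
    IsQuotientMap (Prod.map (collapse A) (collapse B))

theorem relSep_iff_quotient [T1Space X] : RelSep X ↔ QuotientCondition X :=
  ⟨fun h _ _ hA hB hAB => quotient_of_relSep h hB hA hAB.symm,
    fun h => relSep_of_quotient fun A B hA hB hAB => h B A hB hA hAB.symm⟩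

/-- A Hausdorff space with separation of closed relations is normal. -/
theorem RelSep.normalSpace [T2Space X] (h : RelSep X) : NormalSpace X := by
  refine ⟨fun A B hA hB hAB => ?_⟩
  obtain ⟨U, V, hU, hV, hAU, hBV, hUV⟩ := h (diagonal X) A B isClosed_diagonal hA hB hAB
    (by
      have : {y | ∃ b ∈ B, (b, y) ∈ diagonal X} = B := by
        ext y
        constructor
        · rintro ⟨b, hb, hby⟩
          have : b = y := hby
          exact this ▸ hb
        · exact fun hy => ⟨y, hy, rfl⟩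
      rw [this, hB.closure_eq]
      exact hAB.symm)
    (by
      have : {x | ∃ a ∈ A, (x, a) ∈ diagonal X} = A := by
        ext y
        constructor
        · rintro ⟨b, hb, hby⟩
          have : y = b := hby
          exact this ▸ hb
        · exact fun hy => ⟨y, hy, rfl⟩
      rw [this, hA.closure_eq]
      exact hAB)
  exact ⟨U, V, hU, hV, hAU, hBV, Set.disjoint_left.2 fun x hx hx' => hUV x hx' x hx rfl⟩

lemma normal_of_property' (h : ClosedPreordersWeaklyContinuous X) {r : X → X → Prop}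
    (hr : IsClosedPreorder r) : IsNormalRel r := normal_of_property h hr

/-- The property of the problem implies the separation of closed relations. -/
theorem relSep_of_property [T2Space X] (h : ClosedPreordersWeaklyContinuous X) : RelSep X := by
  intro F A B hF hA hB hAB h1 h2
  have hnorm : NormalSpace X := by
    have h3 := normal_of_property' h (r := fun x y => x = y)
      ⟨⟨fun _ => rfl, fun _ _ _ h h' => h.trans h'⟩, isClosed_diagonal⟩
    refine ⟨fun A B hA hB hAB => ?_⟩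
    obtain ⟨U, V, hU, _, hV, _, hAU, hBV, hUV⟩ := h3 A B hA
      (fun z x hzx hx => by rw [hzx]; exact hx) hB (fun z x hzx hx => by rw [← hzx]; exact hx)
      hAB.inter_eq
    exact ⟨U, V, hU, hV, hAU, hBV, Set.disjoint_iff_inter_eq_empty.2 hUV⟩
  set CB := closure {y | ∃ b ∈ B, (b, y) ∈ F} with hCB
  set CA := closure {x | ∃ a ∈ A, (x, a) ∈ F} with hCA
  -- closed neighbourhoods
  obtain ⟨U0, hU0, hAU0, hcU0⟩ := normal_exists_closure_subset hA
    (hB.union (isClosed_closure (s := {y | ∃ b ∈ B, (b, y) ∈ F}))).isOpen_compl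
    (fun x hx hx' => by
      rcases hx' with hx' | hx'
      · exact Set.disjoint_left.1 hAB hx hx'
      · exact Set.disjoint_left.1 h1 hx' hx)
  obtain ⟨V0, hV0, hBV0, hcV0⟩ := normal_exists_closure_subset hB
    ((isClosed_closure (s := U0)).union
      (isClosed_closure (s := {x | ∃ a ∈ A, (x, a) ∈ F}))).isOpen_compl
    (fun x hx hx' => by
      rcases hx' with hx' | hx'
      · exact hcU0 hx' (Or.inl hx)
      · exact Set.disjoint_left.1 h2 hx' hx)
  set C := closure U0 with hC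
  set D := closure V0 with hD
  have hCD : ∀ x, x ∈ C → x ∈ D → False := fun x hx hx' => hcV0 hx' (Or.inl hx)
  let r : X → X → Prop := fun x y => x = y ∨ ((x, y) ∈ F ∧ x ∈ D ∧ y ∈ C)
  have hr : IsClosedPreorder r := by
    refine ⟨⟨fun x => Or.inl rfl, ?_⟩, ?_⟩
    · rintro x y z (h | h) (h' | h')
      · exact Or.inl (h.trans h')
      · subst h; exact Or.inr h'
      · subst h'; exact Or.inr h
      · exact (hCD y h.2.2 h'.2.1).elim
    · have : {p : X × X | r p.1 p.2} = diagonal X ∪ (F ∩ (D ×ˢ C)) := by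
        ext ⟨x, y⟩; rfl
      rw [this]
      exact isClosed_diagonal.union (hF.inter (isClosed_closure.prod isClosed_closure))
  obtain ⟨U, V, hU, hU', hV, hV', hAU, hBV, hUV⟩ := normal_of_property' h hr A B hA
    (by
      rintro z x (hzx | hzx) hx
      · rw [hzx]; exact hx
      · exact (hcV0 hzx.2.1 (Or.inr (subset_closure ⟨x, hx, hzx.1⟩))).elim)
    hB
    (by
      rintro z x (hzx | hzx) hx
      · rw [← hzx]; exact hx
      · exact (hcU0 hzx.2.2 (Or.inr (subset_closure ⟨x, hx, hzx.1⟩))).elim)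
    hAB.inter_eq
  refine ⟨U ∩ U0, V ∩ V0, hU.inter hU0, hV.inter hV0, subset_inter hAU hAU0,
    subset_inter hBV hBV0, ?_⟩
  rintro v ⟨hv, hv0⟩ u ⟨hu, hu0⟩ hvu
  have hvU : v ∈ U := hU' v u (Or.inr ⟨hvu, subset_closure hv0, subset_closure hu0⟩) hu
  have : v ∈ U ∩ V := ⟨hvU, hv⟩
  rw [hUV] at this
  exact this

end Pool.Agent.H78.PreT
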