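import Pool.Agent.H78.PreT.Func
import Pool.Agent.H73.PreorderSuff

/-!
# The half separation in σ-compact spaces from the sequence condition
-/

namespace Pool.Agent.H78.PreT

open Set Filter Topology Pool.Agent.H73.Preord

variable {X : Type*} [TopologicalSpace X]

/-- Separation of a compact set and a closed decreasing set. -/
lemma sep_compact [T2Space X] [NormalSpace X] [LindelofSpace X] (h : SeqCond X)
    {r : X → X → Prop} (hr : IsClosedPreorder r) (T : ℕ → Set X) (hT : ∀ n, IsCompact (T n))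
    (hTu : ⋃ n, T n = univ) {Q A : Set X} (hQ : IsCompact Q) (hA : IsClosed A)
    (hA' : IsDecr r A) (hQA : Disjoint Q A) :
    ∃ P M : Set X, IsOpen P ∧ IsOpen M ∧ Q ⊆ P ∧ A ⊆ M ∧ ∀ p ∈ P, ∀ m ∈ M, ¬ r p m := by
  classical
  obtain ⟨P0, hP0, hQP0, hcP0⟩ := normal_exists_closure_subset hQ.isClosed hA.isOpen_compl
    (fun x hx hx' => Set.disjoint_left.1 hQA hx hx')
  rcases Q.eq_empty_or_nonempty with hQe | ⟨q0, hq0⟩
  · exact ⟨∅, univ, isOpen_empty, isOpen_univ, hQe.subset, subset_univ _, fun p hp => hp.elim⟩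
  set L := closure P0 with hL
  have hLc : IsClosed L := isClosed_closure
  have hLA : ∀ x ∈ L, x ∉ A := fun x hx => hcP0 hx
  -- rectangles
  have h1 : ∀ (k : ℕ) (x : X), ∃ O N : Set X, IsOpen O ∧ IsOpen N ∧ (x ∈ L → x ∈ O) ∧
      A ∩ T k ⊆ N ∧ ∀ p ∈ O, ∀ m ∈ N, ¬ r p m := by
    intro k x
    by_cases hx : x ∈ L
    · obtain ⟨O, N, hO, hN, hxO, hAN, hON⟩ := generalized_tube_lemma (isCompact_singleton (x := x))
        ((hT k).inter_left hA) hr.isClosed.isOpen_compl (by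
          rintro ⟨y, a⟩ ⟨hy, ha⟩
          have hy' : y = x := hy
          subst hy'
          exact fun hya => hLA y hx (hA' y a hya ha.1))
      exact ⟨O, N, hO, hN, fun _ => hxO rfl, hAN, fun p hp m hm hpm => hON (Set.mk_mem_prod hp hm) hpm⟩
    · exact ⟨∅, univ, isOpen_empty, isOpen_univ, fun h => (hx h).elim, subset_univ _,
        fun p hp => hp.elim⟩
  choose O N hO hN hxO hAN hON using h1
  have h2 : ∀ k : ℕ, ∃ e : ℕ → X, L ⊆ ⋃ i, O k (e i) := by
    intro k
    obtain ⟨t, ht, htL, htU⟩ := (hLc.isLindelof).elim_nhds_subcover (O k)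
      (fun x hx => (hO k x).mem_nhds (hxO k x hx))
    have htne : t.Nonempty := by
      have : q0 ∈ ⋃ x ∈ t, O k x := htU (subset_closure (hQP0 hq0))
      obtain ⟨y, hy, _⟩ := mem_iUnion₂.1 this
      exact ⟨y, hy⟩
    obtain ⟨e, rfl⟩ := ht.exists_eq_range htne
    exact ⟨e, fun x hx => by
      obtain ⟨y, ⟨i, rfl⟩, hy⟩ := mem_iUnion₂.1 (htU hx)
      exact mem_iUnion.2 ⟨i, hy⟩⟩
  choose e he using h2
  let Z : ℕ → ℕ → Set X := fun k j => L \ ⋃ i < j, O k (e k i)
  obtain ⟨U, hU, hQU, hUZ⟩ := h Q hQ.isClosed Z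
    (fun k j => hLc.sdiff (isOpen_biUnion fun i _ => hO _ _))
    (fun k i j hij x hx => ⟨hx.1, fun hx' => hx.2 (by
      obtain ⟨l, hl, hxl⟩ := mem_iUnion₂.1 hx'
      exact mem_iUnion₂.2 ⟨l, lt_of_lt_of_le hl hij, hxl⟩)⟩)
    (fun k => by
      apply Set.eq_empty_of_forall_notMem
      intro x hx
      have hx' := mem_iInter.1 hx
      obtain ⟨i, hi⟩ := mem_iUnion.1 (he k (hx' 0).1)
      exact (hx' (i + 1)).2 (mem_iUnion₂.2 ⟨i, Nat.lt_succ_self i, hi⟩))
    (fun k => by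
      obtain ⟨t, ht⟩ := hQ.elim_finite_subcover (fun i => O k (e k i)) (fun i => hO _ _)
        (fun x hx => he k (subset_closure (hQP0 hx)))
      refine ⟨t.sup id + 1, Set.disjoint_left.2 fun x hx hx' => hx'.2 ?_⟩
      obtain ⟨i, hi, hxi⟩ := mem_iUnion₂.1 (ht hx)
      exact mem_iUnion₂.2 ⟨i, Nat.lt_succ_of_le (Finset.le_sup (f := id) hi), hxi⟩)
  choose j hj using hUZ
  refine ⟨U ∩ P0, ⋃ k, ⋂ i ∈ Finset.range (j k), N k (e k i), hU.inter hP0,
    isOpen_iUnion fun k => isOpen_biInter_finset fun i _ => hN _ _,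
    subset_inter hQU hQP0, ?_, ?_⟩
  · intro a ha
    have : a ∈ ⋃ n, T n := by rw [hTu]; exact mem_univ a
    obtain ⟨k, hk⟩ := mem_iUnion.1 this
    exact mem_iUnion.2 ⟨k, mem_iInter₂.2 fun i _ => hAN k _ ⟨ha, hk⟩⟩
  · rintro p ⟨hpU, hp0⟩ m hm hpm
    obtain ⟨k, hk⟩ := mem_iUnion.1 hm
    have h3 : p ∉ Z k (j k) := fun h => Set.disjoint_left.1 (hj k) hpU h
    have h4 : p ∈ ⋃ i < j k, O k (e k i) := by
      by_contra hcon
      exact h3 ⟨subset_closure hp0, hcon⟩
    obtain ⟨i, hi, hpi⟩ := mem_iUnion₂.1 h4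
    exact hON k (e k i) p hpi m (mem_iInter₂.1 hk i (Finset.mem_range.2 hi)) hpm

/-- A node of the tree: an open set `O` with closure in the open set `O'`, whose points have all
their predecessors in the open set `W`; and a set `G` which contains `closure W ∩ T` and is
decreasing in `T`. -/
structure Node (r : X → X → Prop) (T B : Set X) where
  O : Set X
  O' : Set X
  W : Set X
  G : Set X
  isOpenO : IsOpen O
  isOpenO' : IsOpen O'
  isOpenW : IsOpen W
  clO : closure O ⊆ O'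
  lowW : ∀ x y, r x y → y ∈ O' → x ∈ W
  clW : ∀ x ∈ closure W, x ∈ T → x ∈ G
  decrG : ∀ x y, r x y → y ∈ G → x ∈ T → x ∈ G
  disjG : ∀ x ∈ G, x ∉ B
  disjO' : ∀ x ∈ O', x ∉ B

/-- The empty node. -/
def Node.empty (r : X → X → Prop) (T B : Set X) : Node r T B where
  O := ∅
  O' := ∅
  W := ∅
  G := ∅
  isOpenO := isOpen_empty
  isOpenO' := isOpen_empty
  isOpenW := isOpen_empty
  clO := by simp
  lowW := fun x y _ h => h
  clW := fun x hx _ => by simp at hx
  decrG := fun x y _ h _ => h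
  disjG := fun x hx => hx.elim
  disjO' := fun x hx => hx.elim

/-- `A` is contained in the open set of the node, or its closure misses `A`. -/
def Node.Good {r : X → X → Prop} {T B : Set X} (A : Set X) (s : Node r T B) : Prop :=
  A ⊆ s.O ∨ Disjoint (closure s.O) A

/-- Construction of one child of a node. -/
lemma Node.child [T2Space X] [NormalSpace X] {r : X → X → Prop} (hr : IsClosedPreorder r)
    {T T' B : Set X} (hT' : IsCompact T') (hB : IsClosed B) (hB' : IsIncr r B)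
    (s : Node r T B) {Γ Ω : Set X} (hΓ : IsClosed Γ) (hΓs : Γ ⊆ s.O')
    (hdΓ : IsClosed (dHull r Γ)) (hΩ : IsOpen Ω) (hΓΩ : Γ ⊆ Ω)
    (hsep : ∀ Q : Set X, IsCompact Q → Disjoint Q (dHull r Γ) →
      ∃ P M : Set X, IsOpen P ∧ IsOpen M ∧ Q ⊆ P ∧ Γ ⊆ M ∧ ∀ p ∈ P, ∀ m ∈ M, ¬ r p m) :
    ∃ t : Node r T' B, t.W ⊆ s.W ∧ t.G ⊆ s.W ∧ Γ ⊆ t.O ∧ closure t.O ⊆ Ω := by
  -- the bad compact set
  set Q0 := T' ∩ (s.W ∩ Bᶜ)ᶜ with hQ0
  have hQ0c : IsCompact Q0 := hT'.inter_right (s.isOpenW.inter hB.isOpen_compl).isClosed_compl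
  have hup : IsClosed (iHull r Q0) := isClosed_iHull hr hQ0c
  have hlow : ∀ q, q ∈ dHull r Γ → q ∈ s.W ∩ Bᶜ := by
    rintro q ⟨γ, hγ, hqγ⟩
    exact ⟨s.lowW q γ hqγ (hΓs hγ), fun hqB => s.disjO' γ (hΓs hγ) (hB' γ q hqγ hqB)⟩
  obtain ⟨N1, hN1, hCN1, hcN1⟩ := normal_exists_closure_subset (hdΓ.inter hT'.isClosed)
    hup.isOpen_compl (by
      rintro c ⟨⟨γ, hγ, hcγ⟩, -⟩ ⟨q, hq, hqc⟩
      exact hq.2 (hlow q ⟨γ, hγ, hr.isPreorder.trans _ _ _ hqc hcγ⟩))
  have hK : IsCompact (closure N1 ∩ T') := hT'.inter_left isClosed_closure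
  have hQt : IsCompact (T' \ N1) := hT'.diff hN1
  obtain ⟨P, M, hP, hM, hQP, hΓM, hPM⟩ := hsep (T' \ N1) hQt
    (Set.disjoint_left.2 fun x hx hx' => hx.2 (hCN1 ⟨hx', hx.1⟩))
  obtain ⟨N2, hN2, hQN2, hcN2⟩ := normal_exists_closure_subset hQt.isClosed hP hQP
  obtain ⟨O, hO, hΓO, hcO⟩ := normal_exists_closure_subset hΓ
    ((hM.inter s.isOpenO').inter hΩ) (subset_inter (subset_inter hΓM hΓs) hΓΩ)
  have hGW : ∀ x ∈ dHull r (closure N1 ∩ T') ∩ T', x ∈ s.W ∩ Bᶜ := by
    rintro x ⟨⟨y, hy, hxy⟩, hxT⟩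
    by_contra hcon
    exact hcN1 hy.1 ⟨x, ⟨hxT, hcon⟩, hxy⟩
  refine ⟨{ O := O
            O' := M ∩ s.O'
            W := s.W ∩ (closure N2)ᶜ
            G := dHull r (closure N1 ∩ T') ∩ T'
            isOpenO := hO
            isOpenO' := hM.inter s.isOpenO'
            isOpenW := s.isOpenW.inter isClosed_closure.isOpen_compl
            clO := fun x hx => (hcO hx).1
            lowW := fun x y hxy hy => ⟨s.lowW x y hxy hy.2, fun hx =>
              hPM x (hcN2 hx) y hy.1 hxy⟩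
            clW := ?_
            decrG := ?_
            disjG := fun x hx => (hGW x hx).2
            disjO' := fun x hx => s.disjO' x hx.2 },
    inter_subset_left, fun x hx => (hGW x hx).1, hΓO, fun x hx => (hcO hx).2⟩
  · intro x hx hxT
    have h1 : x ∉ N2 := by
      have h2 : closure (s.W ∩ (closure N2)ᶜ) ⊆ N2ᶜ := closure_minimal
        (fun y hy hy' => hy.2 (subset_closure hy')) hN2.isClosed_compl
      exact h2 hx
    have h3 : x ∈ N1 := by
      by_contra hcon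
      exact h1 (hQN2 ⟨hxT, hcon⟩)
    exact ⟨subset_dHull hr.isPreorder _ ⟨subset_closure h3, hxT⟩, hxT⟩
  · rintro x y hxy ⟨hy, _⟩ hxT
    exact ⟨isDecr_dHull hr.isPreorder _ x y hxy hy, hxT⟩

/-- A cover by a sequence of nodes. -/
lemma exists_node_seq [LindelofSpace X] {r : X → X → Prop} {T' B : Set X} {L : Set X}
    (hL : IsClosed L) (p : Node r T' B → Prop) (hd : ∃ t, p t)
    (h : ∀ y ∈ L, ∃ t : Node r T' B, p t ∧ y ∈ t.O) :
    ∃ t : ℕ → Node r T' B, (∀ i, p (t i)) ∧ L ⊆ ⋃ i, (t i).O := by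
  classical
  obtain ⟨d, hd⟩ := hd
  have h' : ∀ y : X, ∃ t : Node r T' B, p t ∧ (y ∈ L → y ∈ t.O) := by
    intro y
    by_cases hy : y ∈ L
    · obtain ⟨t, ht, hyt⟩ := h y hy
      exact ⟨t, ht, fun _ => hyt⟩
    · exact ⟨d, hd, fun h => (hy h).elim⟩
  choose τ hτ hτ' using h'
  obtain ⟨t, ht, htL, htU⟩ := hL.isLindelof.elim_nhds_subcover (fun y => (τ y).O)
    (fun y hy => (τ y).isOpenO.mem_nhds (hτ' y hy))
  rcases t.eq_empty_or_nonempty with hte | hte
  · refine ⟨fun _ => d, fun _ => hd, fun x hx => ?_⟩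
    have := htU hx
    rw [hte] at this
    simp at this
  · obtain ⟨e, rfl⟩ := ht.exists_eq_range hte
    refine ⟨fun i => τ (e i), fun i => hτ _, fun x hx => ?_⟩
    obtain ⟨y, ⟨i, rfl⟩, hy⟩ := mem_iUnion₂.1 (htU hx)
    exact mem_iUnion.2 ⟨i, hy⟩

/-- All children of a node. -/
lemma Node.children [T2Space X] [NormalSpace X] [LindelofSpace X] (h : SeqCond X)
    {r : X → X → Prop} (hr : IsClosedPreorder r) (T : ℕ → Set X) (hT : ∀ n, IsCompact (T n))
    (hTu : ⋃ n, T n = univ) {A B : Set X} (hA : IsClosed A) (hA' : IsDecr r A)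
    (hB : IsClosed B) (hB' : IsIncr r B) {T1 T' : Set X} (hT' : IsCompact T')
    (s : Node r T1 B) (hs : s.Good A) :
    ∃ t : ℕ → Node r T' B, (∀ i, (t i).Good A ∧ (t i).W ⊆ s.W ∧ (t i).G ⊆ s.W) ∧
      closure s.O ⊆ ⋃ i, (t i).O ∧ ∃ j, ∀ a ∈ A, a ∈ closure s.O → ∃ i < j, a ∈ (t i).O := by
  -- nodes around points outside `A`
  have hpt : ∀ y ∈ closure s.O, y ∉ A → ∃ t : Node r T' B,
      (t.Good A ∧ t.W ⊆ s.W ∧ t.G ⊆ s.W) ∧ y ∈ t.O := by
    intro y hy hyA
    obtain ⟨t, h1, h2, h3, h4⟩ := s.child hr hT' hB hB' (Γ := {y}) (Ω := Aᶜ)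
      isClosed_singleton (by rintro _ rfl; exact s.clO hy)
      (isClosed_dHull hr isCompact_singleton) hA.isOpen_compl
      (by rintro _ rfl; exact hyA) (by
        intro Q hQ hdis
        obtain ⟨P, M, hP, hM, hQP, hyM, hPM⟩ := generalized_tube_lemma hQ
          (isCompact_singleton (x := y)) hr.isClosed.isOpen_compl (by
            rintro ⟨q, y'⟩ ⟨hq, hy'⟩ hqy
            exact Set.disjoint_left.1 hdis hq ⟨y', hy', hqy⟩)
        exact ⟨P, M, hP, hM, hQP, hyM, fun p hp m hm hpm => hPM (Set.mk_mem_prod hp hm) hpm⟩)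
    exact ⟨t, ⟨Or.inr (Set.disjoint_left.2 fun x hx hx' => h4 hx hx'), h1, h2⟩, h3 rfl⟩
  rcases hs with hs | hs
  · have hdA : dHull r A = A := by
      ext x
      constructor
      · rintro ⟨y, hy, hxy⟩
        exact hA' x y hxy hy
      · exact fun hx => subset_dHull hr.isPreorder _ hx
    obtain ⟨t0, h1, h2, h3, h4⟩ := s.child hr hT' hB hB' (Γ := A) (Ω := univ) hA
      (fun a ha => s.clO (subset_closure (hs ha))) (by rw [hdA]; exact hA) isOpen_univ
      (subset_univ _) (fun Q hQ hdis => by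
        rw [hdA] at hdis
        exact sep_compact h hr T hT hTu hQ hA hA' hdis)
    obtain ⟨t, ht1, ht2⟩ := exists_node_seq (L := closure s.O \ t0.O)
      (isClosed_closure.sdiff t0.isOpenO)
      (fun t : Node r T' B => t.Good A ∧ t.W ⊆ s.W ∧ t.G ⊆ s.W) ⟨t0, Or.inl h3, h1, h2⟩
      (fun y hy => hpt y hy.1 fun hyA => hy.2 (h3 hyA))
    refine ⟨fun i => if i = 0 then t0 else t (i - 1), ?_, ?_, 1, ?_⟩
    · intro i
      simp only
      split_ifs
      · exact ⟨Or.inl h3, h1, h2⟩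
      · exact ht1 _
    · intro x hx
      by_cases hx0 : x ∈ t0.O
      · exact mem_iUnion.2 ⟨0, by simpa using hx0⟩
      · obtain ⟨i, hi⟩ := mem_iUnion.1 (ht2 ⟨hx, hx0⟩)
        exact mem_iUnion.2 ⟨i + 1, by simpa using hi⟩
    · intro a ha _
      exact ⟨0, Nat.one_pos, by simpa using h3 ha⟩
  · obtain ⟨t, ht1, ht2⟩ := exists_node_seq (L := closure s.O) isClosed_closure
      (fun t : Node r T' B => t.Good A ∧ t.W ⊆ s.W ∧ t.G ⊆ s.W)
      ⟨Node.empty r T' B, Or.inr (by simp [Node.empty]), by simp [Node.empty],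
        by simp [Node.empty]⟩
      (fun y hy => hpt y hy fun hyA => Set.disjoint_left.1 hs hy hyA)
    exact ⟨t, ht1, ht2, 0, fun a ha ha' => (Set.disjoint_left.1 hs ha' ha).elim⟩

/-- The half separation in a σ-compact normal space with the sequence condition. -/
theorem halfSep_of_seqCond [T2Space X] [NormalSpace X] [SigmaCompactSpace X] (h : SeqCond X)
    {r : X → X → Prop} (hr : IsClosedPreorder r) : HalfSep r := by
  classical
  intro A B hA hA' hB hB' hAB
  let T : ℕ → Set X := fun n => Nat.casesOn n ∅ (fun n => compactCovering X n)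
  have hT0 : T 0 = ∅ := rfl
  have hTs : ∀ n, T (n + 1) = compactCovering X n := fun n => rfl
  have hT : ∀ n, IsCompact (T n) := by
    intro n
    cases n with
    | zero => exact isCompact_empty
    | succ n => exact isCompact_compactCovering X n
  have hTmono : Monotone T := by
    refine monotone_nat_of_le_succ fun n => ?_
    cases n with
    | zero => exact empty_subset _
    | succ n => exact compactCovering_subset X (Nat.le_succ n)
  have hTu : ⋃ n, T n = univ := by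
    rw [eq_univ_iff_forall]
    intro x
    have : x ∈ ⋃ n, compactCovering X n := by rw [iUnion_compactCovering]; exact mem_univ x
    obtain ⟨n, hn⟩ := mem_iUnion.1 this
    exact mem_iUnion.2 ⟨n + 1, hn⟩
  -- the root
  obtain ⟨O', hO', hAO', hcO'⟩ := normal_exists_closure_subset hA hB.isOpen_compl
    (fun x hx hx' => Set.disjoint_left.1 hAB hx hx')
  obtain ⟨O, hO, hAO, hcO⟩ := normal_exists_closure_subset hA hO' hAO'
  let root : Node r (T 0) B :=
    { O := O
      O' := O'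
      W := univ
      G := ∅
      isOpenO := hO
      isOpenO' := hO'
      isOpenW := isOpen_univ
      clO := hcO
      lowW := fun x y _ _ => mem_univ x
      clW := fun x _ hx => hx
      decrG := fun x y _ hy _ => hy
      disjG := fun x hx => hx.elim
      disjO' := fun x hx => hcO' (subset_closure hx) }
  have hstep : ∀ (n : ℕ) (s : {s : Node r (T n) B // s.Good A}),
      ∃ t : ℕ → {t : Node r (T (n + 1)) B // t.Good A},
        (∀ i, (t i).1.W ⊆ s.1.W ∧ (t i).1.G ⊆ s.1.W) ∧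
        closure s.1.O ⊆ ⋃ i, (t i).1.O ∧
        ∃ j, ∀ a ∈ A, a ∈ closure s.1.O → ∃ i < j, a ∈ (t i).1.O := by
    intro n s
    obtain ⟨t, h1, h2, h3⟩ := s.1.children h hr T hT hTu hA hA' hB hB' (hT (n + 1)) s.2
    exact ⟨fun i => ⟨t i, (h1 i).1⟩, fun i => (h1 i).2, h2, h3⟩
  choose ch ch1 ch2 ch3 using hstep
  -- the tree
  let node : (l : List ℕ) → {s : Node r (T l.length) B // s.Good A} := fun l =>
    List.rec (motive := fun l => {s : Node r (T l.length) B // s.Good A})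
      ⟨root, Or.inl hAO⟩ (fun i l s => ch l.length s i) l
  have hnode : ∀ (i : ℕ) (l : List ℕ), node (i :: l) = ch l.length (node l) i := fun i l => rfl
  let Z : List ℕ → ℕ → Set X := fun l j => closure (node l).1.O \
    ⋃ i < j, (node (i :: l)).1.O
  obtain ⟨U, hU, hAU, hUZ⟩ := h A hA (fun m => Z ((Denumerable.eqv (List ℕ)).symm m))
    (fun m j => isClosed_closure.sdiff (isOpen_biUnion fun i _ => Node.isOpenO _))
    (fun k i j hij x hx => ⟨hx.1, fun hx' => hx.2 (by
      obtain ⟨l, hl, hxl⟩ := mem_iUnion₂.1 hx'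
      exact mem_iUnion₂.2 ⟨l, lt_of_lt_of_le hl hij, hxl⟩)⟩)
    (fun m => by
      apply Set.eq_empty_of_forall_notMem
      intro x hx
      have hx' := mem_iInter.1 hx
      obtain ⟨i, hi⟩ := mem_iUnion.1 (ch2 _ _ (hx' 0).1)
      exact (hx' (i + 1)).2 (mem_iUnion₂.2 ⟨i, Nat.lt_succ_self i, hi⟩))
    (fun m => by
      obtain ⟨j, hj⟩ := ch3 _ (node ((Denumerable.eqv (List ℕ)).symm m))
      refine ⟨j, Set.disjoint_left.2 fun x hx hx' => hx'.2 ?_⟩
      obtain ⟨i, hi, hxi⟩ := hj x hx hx'.1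
      exact mem_iUnion₂.2 ⟨i, hi, hxi⟩)
  have hUZ' : ∀ l, ∃ j, Disjoint U (Z l j) := by
    intro l
    have := hUZ ((Denumerable.eqv (List ℕ)) l)
    simpa using this
  choose j hj using hUZ'
  -- the active lists
  let act : List ℕ → Prop := fun l =>
    List.rec (motive := fun _ => Prop) True (fun i l p => p ∧ i < j l) l
  have hact : ∀ i l, act (i :: l) ↔ (act l ∧ i < j l) := fun i l => Iff.rfl
  have hfin : ∀ n, {l : List ℕ | l.length = n ∧ act l}.Finite := by
    intro n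
    induction n with
    | zero =>
      refine (finite_singleton ([] : List ℕ)).subset ?_
      rintro l ⟨hl, -⟩
      exact List.length_eq_zero_iff.1 hl
    | succ n ih =>
      refine (ih.biUnion (t := fun l => (fun i => i :: l) '' {i | i < j l})
        fun l _ => (finite_lt_nat (j l)).image _).subset ?_
      rintro l ⟨hl, hla⟩
      cases l with
      | nil => simp at hl
      | cons i l =>
        rw [hact] at hla
        exact mem_iUnion₂.2 ⟨l, ⟨by simpa using hl, hla.1⟩, i, hla.2, rfl⟩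
  have hcover : ∀ n, ∀ x ∈ U ∩ O, ∃ l, l.length = n ∧ act l ∧ x ∈ (node l).1.O := by
    intro n
    induction n with
    | zero => exact fun x hx => ⟨[], rfl, trivial, hx.2⟩
    | succ n ih =>
      intro x hx
      obtain ⟨l, hl, hla, hxl⟩ := ih x hx
      have h1 : x ∉ Z l (j l) := fun h => Set.disjoint_left.1 (hj l) hx.1 h
      have h2 : x ∈ ⋃ i < j l, (node (i :: l)).1.O := by
        by_contra hcon
        exact h1 ⟨subset_closure hxl, hcon⟩
      obtain ⟨i, hi, hxi⟩ := mem_iUnion₂.1 h2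
      exact ⟨i :: l, by simp [hl], (hact i l).2 ⟨hla, hi⟩, hxi⟩
  -- ancestors
  have hanc : ∀ (k n : ℕ) (l : List ℕ), l.length = n + k + 1 → act l →
      ∃ l', l'.length = n ∧ act l' ∧ (node l).1.G ⊆ (node l').1.W ∧
        (node l).1.W ⊆ (node l').1.W := by
    intro k
    induction k with
    | zero =>
      intro n l hl hla
      cases l with
      | nil => simp at hl
      | cons i l =>
        rw [hact] at hla
        refine ⟨l, by simpa using hl, hla.1, ?_, ?_⟩
        · rw [hnode]; exact (ch1 _ _ _).2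
        · rw [hnode]; exact (ch1 _ _ _).1
    | succ k ih =>
      intro n l hl hla
      cases l with
      | nil => simp at hl
      | cons i l =>
        rw [hact] at hla
        obtain ⟨l', h1, h2, h3, h4⟩ := ih n l (by simp at hl; omega) hla.1
        refine ⟨l', h1, h2, ?_, ?_⟩
        · rw [hnode]; exact (ch1 _ _ _).2.trans h4
        · rw [hnode]; exact (ch1 _ _ _).1.trans h4
  have hclW : ∀ n l, l.length = n → ∀ x ∈ closure (node l).1.W, x ∈ T n → x ∈ (node l).1.G := by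
    rintro n l rfl x hx hxT
    exact (node l).1.clW x hx hxT
  have hdec : ∀ n l, l.length = n → ∀ x y, r x y → y ∈ (node l).1.G → x ∈ T n →
      x ∈ (node l).1.G := by
    rintro n l rfl x y hxy hy hxT
    exact (node l).1.decrG x y hxy hy hxT
  -- the set
  let E : Set X := {x | ∀ n, x ∈ T n → ∃ l, l.length = n ∧ act l ∧ x ∈ (node l).1.G}
  have hmemT : ∀ x (n : ℕ), ∃ m, n < m ∧ x ∈ T m := by
    intro x n
    have : x ∈ ⋃ n, T n := by rw [hTu]; exact mem_univ x
    obtain ⟨m, hm⟩ := mem_iUnion.1 this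
    exact ⟨max m (n + 1), lt_of_lt_of_le (Nat.lt_succ_self n) (le_max_right _ _),
      hTmono (le_max_left _ _) hm⟩
  have hEW : ∀ n, ∀ x ∈ E, ∃ l, l.length = n ∧ act l ∧ x ∈ (node l).1.W := by
    intro n x hx
    obtain ⟨m, hnm, hxm⟩ := hmemT x n
    obtain ⟨l, hl, hla, hxl⟩ := hx m hxm
    obtain ⟨l', h1, h2, h3, _⟩ := hanc (m - n - 1) n l (by omega) hla
    exact ⟨l', h1, h2, h3 hxl⟩
  refine ⟨U ∩ O, E, hU.inter hO, ?_, ?_, subset_inter hAU hAO, ?_, ?_⟩
  · refine isClosed_of_closure_subset fun x hx n hxn => ?_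
    have h1 : E ⊆ ⋃ l ∈ {l : List ℕ | l.length = n ∧ act l}, (node l).1.W := by
      intro y hy
      obtain ⟨l, h2, h3, h4⟩ := hEW n y hy
      exact mem_iUnion₂.2 ⟨l, ⟨h2, h3⟩, h4⟩
    have h2 : x ∈ ⋃ l ∈ {l : List ℕ | l.length = n ∧ act l}, closure (node l).1.W := by
      rw [← (hfin n).closure_biUnion]
      exact closure_mono h1 hx
    obtain ⟨l, ⟨hl, hla⟩, hxl⟩ := mem_iUnion₂.1 h2
    exact ⟨l, hl, hla, hclW n l hl x hxl hxn⟩
  · intro z x hzx hx n hzn
    obtain ⟨m, hnm, hxm⟩ := hmemT x n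
    obtain ⟨l, hl, hla, hxl⟩ := hx m hxm
    have hzl : z ∈ (node l).1.G := hdec m l hl z x hzx hxl (hTmono hnm.le hzn)
    obtain ⟨l', h1, h2, h3, _⟩ := hanc (m - n - 1) n l (by omega) hla
    exact ⟨l', h1, h2, hclW n l' h1 z (subset_closure (h3 hzl)) hzn⟩
  · intro x hx n hxn
    obtain ⟨l, hl, hla, hxl⟩ := hcover n x hx
    refine ⟨l, hl, hla, hclW n l hl x (subset_closure ?_) hxn⟩
    exact (node l).1.lowW x x (hr.isPreorder.refl x) ((node l).1.clO (subset_closure hxl))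
  · refine Set.disjoint_left.2 fun x hx hxB => ?_
    obtain ⟨m, _, hxm⟩ := hmemT x 0
    obtain ⟨l, hl, hla, hxl⟩ := hx m hxm
    exact (node l).1.disjG x hxl hxB

end Pool.Agent.H78.PreT
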