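import Pool.Agent.H78.PreT.CP
import Pool.Agent.H78.PreT.Func

/-!
# The half separation from the sequence condition, for countable unions of sets with closed
projections
-/

namespace Pool.Agent.H78.PreT

open Set Filter Topology Pool.Agent.H73.Preord

variable {X : Type*} [TopologicalSpace X]

/-- A node of the tree: an open set `O` with closure in the open set `O'`, whose points have all
their predecessors in the open set `W`; and a set `G` which contains `closure W ∩ T` and is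
decreasing in `T`, also in the limit. -/
structure NodeC (r : X → X → Prop) (T B : Set X) where
  O : Set X
  O' : Set X
  W : Set X
  G : Set X
  isOpenO : IsOpen O
  isOpenO' : IsOpen O'
  isOpenW : IsOpen W
  clO : closure O ⊆ O'
  lowW : ∀ x y, r x y → y ∈ O' → x ∈ W
  clW : ∀ x ∈ closure W, x ∈ T → x ∈ G
  decrG : ∀ x y, r x y → y ∈ G → x ∈ T → x ∈ G
  clG : ∀ x ∈ closure (dHull r G), x ∈ T → x ∈ G
  disjG : ∀ x ∈ G, x ∉ B
  disjO' : ∀ x ∈ O', x ∉ B

/-- `A` is contained in the open set of the node, or its closure misses `A`. -/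
def NodeC.Good {r : X → X → Prop} {T B : Set X} (A : Set X) (s : NodeC r T B) : Prop :=
  A ⊆ s.O ∨ Disjoint (closure s.O) A

/-- Construction of one child of a node. -/
lemma NodeC.child [T2Space X] (h : RelSep X) {r : X → X → Prop} (hr : IsClosedPreorder r)
    {T T' B : Set X} (hT'c : IsClosed T') (hT' : CP T') (hB : IsClosed B) (hB' : IsIncr r B)
    (s : NodeC r T B) {Γ Ω : Set X} (hΓ : IsClosed Γ) (hΓs : Γ ⊆ s.O')
    (hdΓ : IsClosed (dHull r Γ)) (hΩ : IsOpen Ω) (hΓΩ : Γ ⊆ Ω) :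
    ∃ t : NodeC r T' B, t.W ⊆ s.W ∧ t.G ⊆ s.W ∧ Γ ⊆ t.O ∧ closure t.O ⊆ Ω := by
  have := h.normalSpace
  -- the bad set
  set Q0 := T' ∩ (s.W ∩ Bᶜ)ᶜ with hQ0
  have hQ0c : IsClosed Q0 := hT'c.inter (s.isOpenW.inter hB.isOpen_compl).isClosed_compl
  have hup : IsClosed (iHull r Q0) := (hT'.mono hQ0c inter_subset_left).isClosed_iHull hr
  have hlow : ∀ q, q ∈ dHull r Γ → q ∈ s.W ∩ Bᶜ := by
    rintro q ⟨γ, hγ, hqγ⟩
    exact ⟨s.lowW q γ hqγ (hΓs hγ), fun hqB => s.disjO' γ (hΓs hγ) (hB' γ q hqγ hqB)⟩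
  obtain ⟨N1, hN1, hCN1, hcN1⟩ := normal_exists_closure_subset (hdΓ.inter hT'c)
    hup.isOpen_compl (by
      rintro c ⟨⟨γ, hγ, hcγ⟩, -⟩ ⟨q, hq, hqc⟩
      exact hq.2 (hlow q ⟨γ, hγ, hr.isPreorder.trans _ _ _ hqc hcγ⟩))
  have hKc : IsClosed (closure N1 ∩ T') := isClosed_closure.inter hT'c
  have hdK : IsClosed (dHull r (closure N1 ∩ T')) :=
    (hT'.mono hKc inter_subset_right).isClosed_dHull hr
  have hQc : IsClosed (T' \ N1) := hT'c.sdiff hN1
  obtain ⟨P, M, hP, hM, hQP, hΓM, hPM⟩ := h.sep_cp hr hQc (hT'.mono hQc sdiff_subset) hΓ hdΓ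
    (Set.disjoint_left.2 fun x hx hx' => hx.2 (hCN1 ⟨hx', hx.1⟩))
  obtain ⟨N2, hN2, hQN2, hcN2⟩ := normal_exists_closure_subset hQc hP hQP
  obtain ⟨O, hO, hΓO, hcO⟩ := normal_exists_closure_subset hΓ
    ((hM.inter s.isOpenO').inter hΩ) (subset_inter (subset_inter hΓM hΓs) hΓΩ)
  have hGW : ∀ x ∈ dHull r (closure N1 ∩ T') ∩ T', x ∈ s.W ∩ Bᶜ := by
    rintro x ⟨⟨y, hy, hxy⟩, hxT⟩
    by_contra hcon
    exact hcN1 hy.1 ⟨x, ⟨hxT, hcon⟩, hxy⟩
  refine ⟨{ O := O
            O' := M ∩ s.O'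
            W := s.W ∩ (closure N2)ᶜ
            G := dHull r (closure N1 ∩ T') ∩ T'
            isOpenO := hO
            isOpenO' := hM.inter s.isOpenO'
            isOpenW := s.isOpenW.inter isClosed_closure.isOpen_compl
            clO := fun x hx => (hcO hx).1
            lowW := fun x y hxy hy => ⟨s.lowW x y hxy hy.2, fun hx =>
              hPM x (hcN2 hx) y hy.1 hxy⟩
            clW := ?_
            decrG := ?_
            clG := ?_
            disjG := fun x hx => (hGW x hx).2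
            disjO' := fun x hx => s.disjO' x hx.2 },
    inter_subset_left, fun x hx => (hGW x hx).1, hΓO, fun x hx => (hcO hx).2⟩
  · intro x hx hxT
    have h1 : x ∉ N2 := by
      have h2 : closure (s.W ∩ (closure N2)ᶜ) ⊆ N2ᶜ := closure_minimal
        (fun y hy hy' => hy.2 (subset_closure hy')) hN2.isClosed_compl
      exact h2 hx
    have h3 : x ∈ N1 := by
      by_contra hcon
      exact h1 (hQN2 ⟨hxT, hcon⟩)
    exact ⟨subset_dHull hr.isPreorder _ ⟨subset_closure h3, hxT⟩, hxT⟩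
  · rintro x y hxy ⟨hy, _⟩ hxT
    exact ⟨isDecr_dHull hr.isPreorder _ x y hxy hy, hxT⟩
  · intro x hx hxT
    refine ⟨?_, hxT⟩
    have h1 : dHull r (dHull r (closure N1 ∩ T') ∩ T') ⊆ dHull r (closure N1 ∩ T') := by
      rintro z ⟨y, ⟨hy, _⟩, hzy⟩
      exact isDecr_dHull hr.isPreorder _ z y hzy hy
    exact closure_minimal h1 hdK hx

/-- All children of a node. -/
lemma NodeC.children [T2Space X] (h : RelSep X) {r : X → X → Prop} (hr : IsClosedPreorder r)
    (T : ℕ → Set X) (hTc : ∀ n, IsClosed (T n)) (hT : ∀ n, CP (T n))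
    (hTu : ⋃ n, T n = univ) {A B : Set X} (hA : IsClosed A) (hA' : IsDecr r A)
    (hB : IsClosed B) (hB' : IsIncr r B) {T1 T' : Set X} (hT'c : IsClosed T') (hT' : CP T')
    (s : NodeC r T1 B) (hs : s.Good A) :
    ∃ t : ℕ → NodeC r T' B, (∀ i, (t i).Good A ∧ (t i).W ⊆ s.W ∧ (t i).G ⊆ s.W) ∧
      closure s.O ⊆ ⋃ i, (t i).O ∧ ∃ j, ∀ a ∈ A, a ∈ closure s.O → ∃ i < j, a ∈ (t i).O := by
  -- nodes around closed sets outside `A`
  have hpt : ∀ L : Set X, IsClosed L → L ⊆ closure s.O → Disjoint L A → ∀ k,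
      ∃ t : NodeC r T' B, (t.Good A ∧ t.W ⊆ s.W ∧ t.G ⊆ s.W) ∧ L ∩ T k ⊆ t.O := by
    intro L hL hLs hLA k
    have hLk : IsClosed (L ∩ T k) := hL.inter (hTc k)
    obtain ⟨t, h1, h2, h3, h4⟩ := s.child h hr hT'c hT' hB hB' (Γ := L ∩ T k) (Ω := Aᶜ)
      hLk (fun x hx => s.clO (hLs hx.1))
      (((hT k).mono hLk inter_subset_right).isClosed_dHull hr) hA.isOpen_compl
      (fun x hx hx' => Set.disjoint_left.1 hLA hx.1 hx')
    exact ⟨t, ⟨Or.inr (Set.disjoint_left.2 fun x hx hx' => h4 hx hx'), h1, h2⟩, h3⟩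
  rcases hs with hs | hs
  · have hdA : dHull r A = A := by
      ext x
      constructor
      · rintro ⟨y, hy, hxy⟩
        exact hA' x y hxy hy
      · exact fun hx => subset_dHull hr.isPreorder _ hx
    obtain ⟨t0, h1, h2, h3, h4⟩ := s.child h hr hT'c hT' hB hB' (Γ := A) (Ω := univ) hA
      (fun a ha => s.clO (subset_closure (hs ha))) (by rw [hdA]; exact hA) isOpen_univ
      (subset_univ _)
    choose t ht1 ht2 using hpt (closure s.O \ t0.O) (isClosed_closure.sdiff t0.isOpenO)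
      sdiff_subset (Set.disjoint_left.2 fun x hx hx' => hx.2 (h3 hx'))
    refine ⟨fun i => if i = 0 then t0 else t (i - 1), ?_, ?_, 1, ?_⟩
    · intro i
      simp only
      split_ifs
      · exact ⟨Or.inl h3, h1, h2⟩
      · exact ht1 _
    · intro x hx
      by_cases hx0 : x ∈ t0.O
      · exact mem_iUnion.2 ⟨0, by simpa using hx0⟩
      · have : x ∈ ⋃ n, T n := by rw [hTu]; exact mem_univ x
        obtain ⟨i, hi⟩ := mem_iUnion.1 this
        exact mem_iUnion.2 ⟨i + 1, by simpa using ht2 i ⟨⟨hx, hx0⟩, hi⟩⟩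
    · intro a ha _
      exact ⟨0, Nat.one_pos, by simpa using h3 ha⟩
  · choose t ht1 ht2 using hpt (closure s.O) isClosed_closure Subset.rfl hs
    refine ⟨t, ht1, fun x hx => ?_, 0, fun a ha ha' => (Set.disjoint_left.1 hs ha' ha).elim⟩
    have : x ∈ ⋃ n, T n := by rw [hTu]; exact mem_univ x
    obtain ⟨i, hi⟩ := mem_iUnion.1 this
    exact mem_iUnion.2 ⟨i, ht2 i ⟨hx, hi⟩⟩

/-- The root. -/
lemma exists_root [T2Space X] [NormalSpace X] {r : X → X → Prop} {A B : Set X}
    (hA : IsClosed A) (hB : IsClosed B) (hAB : Disjoint A B) :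
    ∃ s : NodeC r (∅ : Set X) B, A ⊆ s.O := by
  obtain ⟨O', hO', hAO', hcO'⟩ := normal_exists_closure_subset hA hB.isOpen_compl
    (fun x hx hx' => Set.disjoint_left.1 hAB hx hx')
  obtain ⟨O, hO, hAO, hcO⟩ := normal_exists_closure_subset hA hO' hAO'
  exact ⟨
    { O := O
      O' := O'
      W := univ
      G := ∅
      isOpenO := hO
      isOpenO' := hO'
      isOpenW := isOpen_univ
      clO := hcO
      lowW := fun x y _ _ => mem_univ x
      clW := fun x _ hx => hx
      decrG := fun x y _ hy _ => hy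
      clG := fun x _ hx => hx
      disjG := fun x hx => hx.elim
      disjO' := fun x hx => hcO' (subset_closure hx) }, hAO⟩

/-- The half separation if the set of non-isolated points has closed projections. -/
theorem halfSep_of_cp_nonIsolated [T2Space X] (h : RelSep X) (hcp : CP (nonIsolated X))
    {r : X → X → Prop} (hr : IsClosedPreorder r) : HalfSep r := by
  have := h.normalSpace
  intro A B hA hA' hB hB' hAB
  obtain ⟨root, hroot⟩ := exists_root (r := r) hA hB hAB
  have hdA : dHull r A = A := by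
    ext x
    constructor
    · rintro ⟨y, hy, hxy⟩
      exact hA' x y hxy hy
    · exact fun hx => subset_dHull hr.isPreorder _ hx
  obtain ⟨t, -, -, h3, -⟩ := root.child h hr hcp.isClosed hcp hB hB' (Γ := A) (Ω := univ) hA
    (fun a ha => root.clO (subset_closure (hroot ha))) (by rw [hdA]; exact hA) isOpen_univ
    (subset_univ _)
  have hOO' : t.O ⊆ t.O' := subset_closure.trans t.clO
  refine ⟨t.O, dHull r (t.G ∪ t.O), t.isOpenO, ?_, isDecr_dHull hr.isPreorder _, h3,
    fun x hx => subset_dHull hr.isPreorder _ (Or.inr hx), ?_⟩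
  · refine isClosed_of_closure_subset fun x hx => ?_
    by_cases hxN : x ∈ nonIsolated X
    · have h1 : dHull r (t.G ∪ t.O) ⊆ dHull r t.G ∪ t.W := by
        rintro z ⟨y, hy | hy, hzy⟩
        · exact Or.inl ⟨y, hy, hzy⟩
        · exact Or.inr (t.lowW z y hzy (hOO' hy))
      have h2 := closure_mono h1 hx
      rw [closure_union] at h2
      refine subset_dHull hr.isPreorder _ (Or.inl ?_)
      rcases h2 with h2 | h2
      · exact t.clG x h2 hxN
      · exact t.clW x h2 hxN
    · have hxo : IsOpen ({x} : Set X) := by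
        by_contra hcon
        exact hxN hcon
      obtain ⟨y, hy, hy'⟩ := mem_closure_iff.1 hx {x} hxo rfl
      have : y = x := hy
      exact this ▸ hy'
  · refine Set.disjoint_left.2 ?_
    rintro x ⟨y, hy | hy, hxy⟩ hxB
    · exact t.disjG y hy (hB' y x hxy hxB)
    · exact t.disjO' y (hOO' hy) (hB' y x hxy hxB)

/-- The half separation from the sequence condition. -/
theorem halfSep_of_seqCondC [T2Space X] (hrs : RelSep X) (h : SeqCond X) (T : ℕ → Set X)
    (hT0 : T 0 = ∅) (hTmono : Monotone T) (hT : ∀ n, CP (T n)) (hTu : ⋃ n, T n = univ)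
    {r : X → X → Prop} (hr : IsClosedPreorder r) : HalfSep r := by
  classical
  have := hrs.normalSpace
  have hTc : ∀ n, IsClosed (T n) := fun n => (hT n).isClosed
  intro A B hA hA' hB hB' hAB
  -- the root
  obtain ⟨root0, hroot0⟩ := exists_root (r := r) hA hB hAB
  obtain ⟨root, hroot⟩ : ∃ s : NodeC r (T 0) B, A ⊆ s.O := by
    rw [hT0]
    exact ⟨root0, hroot0⟩
  set O := root.O with hOdef
  have hstep : ∀ (n : ℕ) (s : {s : NodeC r (T n) B // s.Good A}),
      ∃ t : ℕ → {t : NodeC r (T (n + 1)) B // t.Good A},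
        (∀ i, (t i).1.W ⊆ s.1.W ∧ (t i).1.G ⊆ s.1.W) ∧
        closure s.1.O ⊆ ⋃ i, (t i).1.O ∧
        ∃ j, ∀ a ∈ A, a ∈ closure s.1.O → ∃ i < j, a ∈ (t i).1.O := by
    intro n s
    obtain ⟨t, h1, h2, h3⟩ := s.1.children hrs hr T hTc hT hTu hA hA' hB hB' (hTc (n + 1))
      (hT (n + 1)) s.2
    exact ⟨fun i => ⟨t i, (h1 i).1⟩, fun i => (h1 i).2, h2, h3⟩
  choose ch ch1 ch2 ch3 using hstep
  -- the tree
  let node : (l : List ℕ) → {s : NodeC r (T l.length) B // s.Good A} := fun l =>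
    List.rec (motive := fun l => {s : NodeC r (T l.length) B // s.Good A})
      ⟨root, Or.inl hroot⟩ (fun i l s => ch l.length s i) l
  have hnode0 : (node []).1 = root := rfl
  have hnode : ∀ (i : ℕ) (l : List ℕ), node (i :: l) = ch l.length (node l) i := fun i l => rfl
  let Z : List ℕ → ℕ → Set X := fun l j => closure (node l).1.O \
    ⋃ i < j, (node (i :: l)).1.O
  obtain ⟨U, hU, hAU, hUZ⟩ := h A hA (fun m => Z ((Denumerable.eqv (List ℕ)).symm m))
    (fun m j => isClosed_closure.sdiff (isOpen_biUnion fun i _ => NodeC.isOpenO _))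
    (fun k i j hij x hx => ⟨hx.1, fun hx' => hx.2 (by
      obtain ⟨l, hl, hxl⟩ := mem_iUnion₂.1 hx'
      exact mem_iUnion₂.2 ⟨l, lt_of_lt_of_le hl hij, hxl⟩)⟩)
    (fun m => by
      apply Set.eq_empty_of_forall_notMem
      intro x hx
      have hx' := mem_iInter.1 hx
      obtain ⟨i, hi⟩ := mem_iUnion.1 (ch2 _ _ (hx' 0).1)
      exact (hx' (i + 1)).2 (mem_iUnion₂.2 ⟨i, Nat.lt_succ_self i, hi⟩))
    (fun m => by
      obtain ⟨j, hj⟩ := ch3 _ (node ((Denumerable.eqv (List ℕ)).symm m))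
      refine ⟨j, Set.disjoint_left.2 fun x hx hx' => hx'.2 ?_⟩
      obtain ⟨i, hi, hxi⟩ := hj x hx hx'.1
      exact mem_iUnion₂.2 ⟨i, hi, hxi⟩)
  have hUZ' : ∀ l, ∃ j, Disjoint U (Z l j) := by
    intro l
    have := hUZ ((Denumerable.eqv (List ℕ)) l)
    simpa using this
  choose j hj using hUZ'
  -- the active lists
  let act : List ℕ → Prop := fun l =>
    List.rec (motive := fun _ => Prop) True (fun i l p => p ∧ i < j l) l
  have hact : ∀ i l, act (i :: l) ↔ (act l ∧ i < j l) := fun i l => Iff.rfl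
  have hfin : ∀ n, {l : List ℕ | l.length = n ∧ act l}.Finite := by
    intro n
    induction n with
    | zero =>
      refine (finite_singleton ([] : List ℕ)).subset ?_
      rintro l ⟨hl, -⟩
      exact List.length_eq_zero_iff.1 hl
    | succ n ih =>
      refine (ih.biUnion (t := fun l => (fun i => i :: l) '' {i | i < j l})
        fun l _ => (finite_lt_nat (j l)).image _).subset ?_
      rintro l ⟨hl, hla⟩
      cases l with
      | nil => simp at hl
      | cons i l =>
        rw [hact] at hla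
        exact mem_iUnion₂.2 ⟨l, ⟨by simpa using hl, hla.1⟩, i, hla.2, rfl⟩
  have hcover : ∀ n, ∀ x ∈ U ∩ O, ∃ l, l.length = n ∧ act l ∧ x ∈ (node l).1.O := by
    intro n
    induction n with
    | zero => exact fun x hx => ⟨[], rfl, trivial, hx.2⟩
    | succ n ih =>
      intro x hx
      obtain ⟨l, hl, hla, hxl⟩ := ih x hx
      have h1 : x ∉ Z l (j l) := fun h => Set.disjoint_left.1 (hj l) hx.1 h
      have h2 : x ∈ ⋃ i < j l, (node (i :: l)).1.O := by
        by_contra hcon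
        exact h1 ⟨subset_closure hxl, hcon⟩
      obtain ⟨i, hi, hxi⟩ := mem_iUnion₂.1 h2
      exact ⟨i :: l, by simp [hl], (hact i l).2 ⟨hla, hi⟩, hxi⟩
  -- ancestors
  have hanc : ∀ (k n : ℕ) (l : List ℕ), l.length = n + k + 1 → act l →
      ∃ l', l'.length = n ∧ act l' ∧ (node l).1.G ⊆ (node l').1.W ∧
        (node l).1.W ⊆ (node l').1.W := by
    intro k
    induction k with
    | zero =>
      intro n l hl hla
      cases l with
      | nil => simp at hl
      | cons i l =>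
        rw [hact] at hla
        refine ⟨l, by simpa using hl, hla.1, ?_, ?_⟩
        · rw [hnode]; exact (ch1 _ _ _).2
        · rw [hnode]; exact (ch1 _ _ _).1
    | succ k ih =>
      intro n l hl hla
      cases l with
      | nil => simp at hl
      | cons i l =>
        rw [hact] at hla
        obtain ⟨l', h1, h2, h3, h4⟩ := ih n l (by simp at hl; omega) hla.1
        refine ⟨l', h1, h2, ?_, ?_⟩
        · rw [hnode]; exact (ch1 _ _ _).2.trans h4
        · rw [hnode]; exact (ch1 _ _ _).1.trans h4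
  have hclW : ∀ n l, l.length = n → ∀ x ∈ closure (node l).1.W, x ∈ T n → x ∈ (node l).1.G := by
    rintro n l rfl x hx hxT
    exact (node l).1.clW x hx hxT
  have hdec : ∀ n l, l.length = n → ∀ x y, r x y → y ∈ (node l).1.G → x ∈ T n →
      x ∈ (node l).1.G := by
    rintro n l rfl x y hxy hy hxT
    exact (node l).1.decrG x y hxy hy hxT
  -- the set
  let E : Set X := {x | ∀ n, x ∈ T n → ∃ l, l.length = n ∧ act l ∧ x ∈ (node l).1.G}
  have hmemT : ∀ x (n : ℕ), ∃ m, n < m ∧ x ∈ T m := by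
    intro x n
    have : x ∈ ⋃ n, T n := by rw [hTu]; exact mem_univ x
    obtain ⟨m, hm⟩ := mem_iUnion.1 this
    exact ⟨max m (n + 1), lt_of_lt_of_le (Nat.lt_succ_self n) (le_max_right _ _),
      hTmono (le_max_left _ _) hm⟩
  have hEW : ∀ n, ∀ x ∈ E, ∃ l, l.length = n ∧ act l ∧ x ∈ (node l).1.W := by
    intro n x hx
    obtain ⟨m, hnm, hxm⟩ := hmemT x n
    obtain ⟨l, hl, hla, hxl⟩ := hx m hxm
    obtain ⟨l', h1, h2, h3, _⟩ := hanc (m - n - 1) n l (by omega) hla
    exact ⟨l', h1, h2, h3 hxl⟩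
  refine ⟨U ∩ O, E, hU.inter root.isOpenO, ?_, ?_, subset_inter hAU hroot, ?_, ?_⟩
  · refine isClosed_of_closure_subset fun x hx n hxn => ?_
    have h1 : E ⊆ ⋃ l ∈ {l : List ℕ | l.length = n ∧ act l}, (node l).1.W := by
      intro y hy
      obtain ⟨l, h2, h3, h4⟩ := hEW n y hy
      exact mem_iUnion₂.2 ⟨l, ⟨h2, h3⟩, h4⟩
    have h2 : x ∈ ⋃ l ∈ {l : List ℕ | l.length = n ∧ act l}, closure (node l).1.W := by
      rw [← (hfin n).closure_biUnion]
      exact closure_mono h1 hx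
    obtain ⟨l, ⟨hl, hla⟩, hxl⟩ := mem_iUnion₂.1 h2
    exact ⟨l, hl, hla, hclW n l hl x hxl hxn⟩
  · intro z x hzx hx n hzn
    obtain ⟨m, hnm, hxm⟩ := hmemT x n
    obtain ⟨l, hl, hla, hxl⟩ := hx m hxm
    have hzl : z ∈ (node l).1.G := hdec m l hl z x hzx hxl (hTmono hnm.le hzn)
    obtain ⟨l', h1, h2, h3, _⟩ := hanc (m - n - 1) n l (by omega) hla
    exact ⟨l', h1, h2, hclW n l' h1 z (subset_closure (h3 hzl)) hzn⟩
  · intro x hx n hxn
    obtain ⟨l, hl, hla, hxl⟩ := hcover n x hx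
    refine ⟨l, hl, hla, hclW n l hl x (subset_closure ?_) hxn⟩
    exact (node l).1.lowW x x (hr.isPreorder.refl x) ((node l).1.clO (subset_closure hxl))
  · refine Set.disjoint_left.2 fun x hx hxB => ?_
    obtain ⟨m, _, hxm⟩ := hmemT x 0
    obtain ⟨l, hl, hla, hxl⟩ := hx m hxm
    exact (node l).1.disjG x hxl hxB

end Pool.Agent.H78.PreT
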