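import Pool.Agent.H78.PreT.Cases
import Pool.Agent.H78.PreT.Main
import Pool.Agent.H73.PreorderCC

/-!
# Countable unions of sets with closed projections: the answer
-/

namespace Pool.Agent.H78.PreT

open Set Filter Topology Pool.Agent.H73.Preord

variable {X : Type*} [TopologicalSpace X]

/-- The separation of closed relations implies the sequence condition, given a continuous function
which is unbounded on the non-isolated points. -/
theorem seqCond_of_unbounded [T2Space X] (h : RelSep X)
    (hclus : ∀ a ∈ nonIsolated X, ∀ G ∈ 𝓝 a, ∃ (z : X) (s : ℕ → X), z ∈ G ∧ (∀ i, s i ∈ G) ∧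
      (∀ i, s i ≠ z) ∧ z ∈ closure (range s))
    (f : X → ℝ) (hf1 : Continuous f) (hf2 : ∀ x, 0 ≤ f x)
    (hf3 : ∀ b : ℝ, ∃ x ∈ nonIsolated X, b < f x) : SeqCond X := by
  classical
  choose g hg1 hg2 using hf3
  let a : ℕ → X := fun n => Nat.rec (g 0) (fun _ x => g (f x + 10)) n
  have has : ∀ n, a (n + 1) = g (f (a n) + 10) := fun n => rfl
  have haX : ∀ n, a n ∈ nonIsolated X := by
    intro n
    cases n with
    | zero => exact hg1 0
    | succ n => rw [has]; exact hg1 _
  set c : ℕ → ℝ := fun n => f (a n) with hc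
  have hcs : ∀ n, c n + 10 < c (n + 1) := fun n => by
    have := hg2 (f (a n) + 10)
    simp only [hc, has]
    exact this
  have hcmono : ∀ n k, c n + 10 * k ≤ c (n + k) := by
    intro n k
    induction k with
    | zero => simp
    | succ k ih =>
      have := hcs (n + k)
      rw [← add_assoc]
      push_cast
      linarith
  have hclt : ∀ m n, m < n → c m + 10 ≤ c n := by
    intro m n hmn
    have h1 := hcmono m (n - m)
    have h2 : m + (n - m) = n := by omega
    rw [h2] at h1
    have h3 : (1 : ℝ) ≤ ((n - m : ℕ) : ℝ) := by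
      have : 1 ≤ n - m := by omega
      exact_mod_cast this
    linarith
  have hcge : ∀ n : ℕ, (n : ℝ) ≤ c n := by
    intro n
    have h1 := hcmono 0 n
    have h2 : 0 ≤ c 0 := hf2 _
    rw [zero_add] at h1
    have h3 : (0 : ℝ) ≤ n := Nat.cast_nonneg n
    linarith
  have h1 : ∀ m, ∃ (z : X) (s : ℕ → X), z ∈ {x | |f x - c m| < 1} ∧
      (∀ i, s i ∈ {x | |f x - c m| < 1}) ∧ (∀ i, s i ≠ z) ∧ z ∈ closure (range s) := by
    intro m
    refine hclus _ (haX m) _ (IsOpen.mem_nhds ?_ ?_)
    · exact isOpen_lt (by fun_prop) continuous_const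
    · simp [hc]
  choose z s hz hs hsz hcl using h1
  -- the test sets
  have hlf : ∀ p : ℕ, LocallyFinite (fun m : ℕ => {x | |f x - c (2 * m + p)| ≤ 1}) := by
    intro p x
    refine ⟨{y | |f y - f x| < 1}, IsOpen.mem_nhds (isOpen_lt (by fun_prop) continuous_const)
      (by simp), ?_⟩
    obtain ⟨n, hn⟩ := exists_nat_gt (f x + 2)
    refine (finite_lt_nat n).subset ?_
    rintro m ⟨y, hy1, hy2⟩
    have hy1' : |f y - c (2 * m + p)| ≤ 1 := hy1
    have hy2' : |f y - f x| < 1 := hy2
    rw [abs_le] at hy1'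
    rw [abs_lt] at hy2'
    have h2 := hcge (2 * m + p)
    have h3 : (m : ℝ) ≤ ((2 * m + p : ℕ) : ℝ) := by
      have : m ≤ 2 * m + p := by omega
      exact_mod_cast this
    have h4 : (m : ℝ) < n := by linarith
    exact_mod_cast h4
  have hdisj : ∀ m n x, |f x - c m| ≤ 1 → |f x - c n| ≤ 1 → m = n := by
    intro m n x h2 h3
    rw [abs_le] at h2 h3
    by_contra hne
    rcases Nat.lt_or_gt_of_ne hne with hlt | hlt
    · have := hclt m n hlt
      linarith
    · have := hclt n m hlt
      linarith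
  intro A hA Z hZ hanti hemp hdis
  choose j0 hj0 using hdis
  -- the two parts of `A`
  have hpart : ∀ p : ℕ, ∃ U : Set X, IsOpen U ∧
      (A ∩ {x | ∀ m, 2 ≤ |f x - c (2 * m + p)|}) ⊆ U ∧ ∀ n, ∃ j : ℕ, Disjoint U (Z n j) := by
    intro p
    have hAc : IsClosed (A ∩ {x | ∀ m : ℕ, 2 ≤ |f x - c (2 * m + p)|}) := by
      refine hA.inter ?_
      rw [ofPred_forall]
      exact isClosed_iInter fun m => isClosed_le continuous_const (by fun_prop)
    obtain ⟨U, hU, hAU, hUZ⟩ := seqCond_of_test h hAc (fun m => z (2 * m + p))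
      (fun m => s (2 * m + p)) (fun m => {x | |f x - c (2 * m + p)| ≤ 1}) (hlf p)
      (fun m => by
        have h3 : |f (z (2 * m + p)) - c (2 * m + p)| < 1 := hz (2 * m + p)
        exact h3.le)
      (fun m i => by
        have h3 : |f (s (2 * m + p) i) - c (2 * m + p)| < 1 := hs (2 * m + p) i
        exact h3.le)
      (fun m n x hm hn => by
        have := hdisj _ _ x hm hn
        omega)
      (fun m => hsz _) (fun m => hcl _)
      (fun m hm => by
        have h2 := hm.2 m
        have h3 : |f (z (2 * m + p)) - c (2 * m + p)| < 1 := hz (2 * m + p)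
        linarith)
      (fun n j => Z n (j0 n + j))
      (fun n j => hZ _ _)
      (fun n i j hij => hanti n (by omega))
      (fun n => by
        apply Set.eq_empty_of_forall_notMem
        intro x hx
        have hx' := mem_iInter.1 hx
        have : x ∈ ⋂ j, Z n j := mem_iInter.2 fun j => hanti n (by omega : j ≤ j0 n + j) (hx' j)
        rw [hemp n] at this
        exact this)
      (fun n j => Set.disjoint_left.2 fun x hx hx' => Set.disjoint_left.1 (hj0 n) hx.1
        (hanti n (Nat.le_add_right _ _) hx'))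
    exact ⟨U, hU, hAU, fun n => ⟨_, (hUZ n).choose_spec⟩⟩
  obtain ⟨U0, hU0, hA0, hb0⟩ := hpart 0
  obtain ⟨U1, hU1, hA1, hb1⟩ := hpart 1
  refine ⟨U0 ∪ U1, hU0.union hU1, fun x hx => ?_, fun n => ?_⟩
  · by_cases hx0 : ∀ m, 2 ≤ |f x - c (2 * m + 0)|
    · exact Or.inl (hA0 ⟨hx, hx0⟩)
    · push Not at hx0
      obtain ⟨m, hm⟩ := hx0
      refine Or.inr (hA1 ⟨hx, fun k => ?_⟩)
      rw [abs_lt] at hm
      rw [le_abs]
      rcases Nat.lt_or_ge (2 * m + 0) (2 * k + 1) with hlt | hge
      · have := hclt _ _ hlt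
        right; linarith
      · have hlt : 2 * k + 1 < 2 * m + 0 := by omega
        have := hclt _ _ hlt
        left; linarith
  · obtain ⟨j0', hj0'⟩ := hb0 n
    obtain ⟨j1', hj1'⟩ := hb1 n
    refine ⟨max j0' j1', disjoint_union_left.2 ⟨hj0'.mono_right (hanti n (le_max_left _ _)),
      hj1'.mono_right (hanti n (le_max_right _ _))⟩⟩

/-- The half separation in countable unions of sets with closed projections. -/
theorem halfSep_of_relSep [T2Space X] (h : RelSep X) (T : ℕ → Set X) (hT0 : T 0 = ∅)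
    (hTmono : Monotone T) (hT : ∀ n, CP (T n)) (hTu : ⋃ n, T n = univ) {r : X → X → Prop}
    (hr : IsClosedPreorder r) : HalfSep r := by
  have := h.normalSpace
  have : T4Space X := ⟨⟩
  by_cases hP : PSpace X
  · exact halfSep_of_seqCondC h (seqCond_of_pSpace hP) T hT0 hTmono hT hTu hr
  have hcc : ∀ n, CC (T n) := fun n => (hT n).cc hP
  by_cases hb : CC (nonIsolated X)
  · exact halfSep_of_cp_nonIsolated h (cp_nonIsolated h T hT hTu hb) hr
  have hb' := hb
  unfold CC at hb'
  push Not at hb'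
  obtain ⟨Z, hZ, hanti, hemp, hne⟩ := hb'
  obtain ⟨f, hf1, hf2, hf3⟩ := exists_growing_cc T (fun n => (hT n).isClosed) hTu hcc Z hZ hanti
    hemp
  refine halfSep_of_seqCondC h (seqCond_of_unbounded h (fun a ha G hG =>
    exists_cluster_seq_cc T hTu hcc ha hG) f hf1 hf2 fun b => ?_) T hT0 hTmono hT hTu hr
  obtain ⟨n, hn⟩ := exists_nat_gt b
  obtain ⟨x, hx, hx'⟩ := Set.not_disjoint_iff.1 (hne n)
  exact ⟨x, hx, hn.trans_le (hf3 n x hx')⟩

/-- Closed projections in a closed subspace. -/
lemma CP.subtype {S C : Set X} (hS : IsClosed S) (hC : CP C) (hCS : C ⊆ S) :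
    CP (Subtype.val ⁻¹' C : Set S) := by
  intro F hF
  have he : IsClosedEmbedding (Subtype.val : S → X) := hS.isClosedEmbedding_subtypeVal
  have he2 : IsClosedEmbedding (Prod.map (Subtype.val : S → X) (Subtype.val : S → X)) :=
    he.prodMap he
  have h1 := (hC _ (he2.isClosedMap _ hF)).preimage (continuous_subtype_val (p := (· ∈ S)))
  have h2 : {y : S | ∃ c ∈ (Subtype.val ⁻¹' C : Set S), (c, y) ∈ F} =
      Subtype.val ⁻¹' {y | ∃ c ∈ C, (c, y) ∈ Prod.map Subtype.val Subtype.val '' F} := by
    ext y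
    constructor
    · rintro ⟨c, hc, hcy⟩
      exact ⟨c, hc, (c, y), hcy, rfl⟩
    · rintro ⟨c, hc, ⟨a, b⟩, hab, he⟩
      rw [Prod.map_apply, Prod.mk.injEq] at he
      have h3 : b = y := Subtype.ext he.2
      refine ⟨⟨c, hCS hc⟩, hc, ?_⟩
      have h4 : a = ⟨c, hCS hc⟩ := Subtype.ext he.1
      rw [← h3, ← h4]
      exact hab
  rw [h2]
  exact h1

/-- The quotient condition characterises the property if the non-isolated points have a
neighbourhood which is a countable union of sets with closed projections. -/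
theorem property_iff_quotient_of_union [T2Space X] (C : ℕ → Set X) (hC : ∀ k, CP (C k))
    (hcov : ∀ x ∈ nonIsolated X, (⋃ k, C k) ∈ 𝓝 x) :
    ClosedPreordersWeaklyContinuous X ↔ QuotientCondition X := by
  refine ⟨fun h => relSep_iff_quotient.1 (relSep_of_property h), fun h => ?_⟩
  have hs := relSep_iff_quotient.2 h
  set S : Set X := ⋃ k, C k with hS
  have hSc : IsClosed S := isClosed_of_nhds hcov
  refine property_of_half fun r hr => halfSep_of_subtype hcov hr ?_
  have hr' : IsClosedPreorder (fun x y : S => r x y) := by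
    refine ⟨⟨fun x => hr.isPreorder.refl _, fun x y z hxy hyz =>
      hr.isPreorder.trans _ _ _ hxy hyz⟩, ?_⟩
    exact hr.isClosed.preimage (f := fun p : S × S => ((p.1 : X), (p.2 : X))) (by fun_prop)
  -- the increasing unions
  let T' : ℕ → Set X := fun n => ⋃ k ∈ Finset.range n, C k
  have hT'cp : ∀ n, CP (T' n) := by
    intro n
    induction n with
    | zero => simpa [T'] using (CP.empty (X := X))
    | succ n ih =>
      have : T' (n + 1) = C n ∪ T' n := by
        simp only [T', Finset.range_add_one, Finset.set_biUnion_insert]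
      rw [this]
      exact (hC n).union ih
  have hT'S : ∀ n, T' n ⊆ S := fun n => iUnion₂_subset fun k _ => subset_iUnion C k
  have hT'mono : Monotone T' := by
    refine monotone_nat_of_le_succ fun n x hx => ?_
    obtain ⟨k, hk, hxk⟩ := mem_iUnion₂.1 hx
    exact mem_iUnion₂.2 ⟨k, Finset.mem_range.2 ((Finset.mem_range.1 hk).trans
      (Nat.lt_succ_self n)), hxk⟩
  refine halfSep_of_relSep (relSep_subtype hSc hs) (fun n => Subtype.val ⁻¹' T' n) ?_ ?_ ?_ ?_ hr'
  · simp [T']
  · exact fun m n hmn => preimage_mono (hT'mono hmn)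
  · exact fun n => (hT'cp n).subtype hSc (hT'S n)
  · rw [eq_univ_iff_forall]
    intro x
    obtain ⟨k, hk⟩ := mem_iUnion.1 x.2
    exact mem_iUnion.2 ⟨k + 1, mem_iUnion₂.2 ⟨k, Finset.mem_range.2 (Nat.lt_succ_self k), hk⟩⟩

/-- The full statement for the class. -/
theorem countableUnions [T2Space X] (C : ℕ → Set X)
    (hC : ∀ k, IsClosedMap (fun p : C k × X => p.2))
    (hcov : (∃ k, nonIsolated X ⊆ C k) ∨ ∀ x ∈ nonIsolated X, (⋃ k, C k) ∈ 𝓝 x) :
    (ClosedPreordersWeaklyContinuous X ↔ QuotientCondition X) ∧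
    ((∀ k, IsCompact (C k)) → (ClosedPreordersWeaklyContinuous X ↔
      IsCompact (nonIsolated X) ∨ (RegularSpace X ∧ FunCond X))) ∧
    ((∀ x ∈ nonIsolated X, ∃ k, C k ∈ 𝓝 x) →
      (ClosedPreordersWeaklyContinuous X ↔ NormalSpace X)) := by
  refine ⟨?_, fun hcomp => ?_, fun hint => ?_⟩
  · rcases hcov with ⟨k, hk⟩ | hcov
    · refine ⟨fun h => relSep_iff_quotient.1 (relSep_of_property h), fun h => ?_⟩
      have hs := relSep_iff_quotient.2 h
      exact property_of_half fun r hr => halfSep_of_cp_nonIsolated hs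
        ((CP.of_isClosedMap (hC k)).mono isClosed_nonIsolated hk) hr
    · exact property_iff_quotient_of_union C (fun k => CP.of_isClosedMap (hC k)) hcov
  · refine (tfae_main X ?_).out 0 2
    rcases hcov with ⟨k, hk⟩ | hcov
    · exact Or.inl ((hcomp k).of_isClosed_subset isClosed_nonIsolated hk)
    · exact Or.inr ⟨⋃ k, C k, isSigmaCompact_iUnion_of_isCompact C hcomp, hcov⟩
  · exact property_iff_normal C hC fun x hx => by
      obtain ⟨k, hk⟩ := hint x hx
      exact mem_iUnion.2 ⟨k, mem_interior_iff_mem_nhds.2 hk⟩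

end Pool.Agent.H78.PreT
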